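import Mathlib
import Pool.Agent.N964.GX.Stm

set_option autoImplicit false

/-!
# Project GW: Sums of the coefficients of `1 / L` and zero-free half-planes: the statements of the parts

As project GX (`Pool.Agent.N964.GX.Stm`), with the line `re s = 1/2 + κ`, `0 ≤ κ < 1/2`, instead of the critical line.
`F` is an L-function of degree `k` in the upper half plane, `a` the coefficients of `-F'/F`. The new part is the kernel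
`H2` of the explicit formula; its real part is nonnegative at all zeros to the left of the line.
-/

namespace Pool.Agent.N964.GW

open Complex MeasureTheory
open Pool.Agent.N964.MX (Dd kk ww Pl cc th cp wt kq)
open Pool.Agent.N964.GX (Dk PSa)
open Pool.Agent.Y23 (Lg)
open Pool.Agent.W354 (LogC)
open Y767.WH (GoodH)

/-- the constant of the gamma factors; it is `(1 - exp (-l s)) / (cosh (l s) - 1)` -/
noncomputable def c0 (l s : ℝ) : ℝ := Real.sinh (l * s) / (Real.cosh (l * s) - 1) - 1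

/-- `(w - s)` times the first part of the kernel, an entire function. For `w ≠ -s` it is
`(s (exp (l w) - 1) - w (1 - exp (-l s))) / ((w + s) (cosh (l s) - 1))`. -/
noncomputable def Hn (l s : ℝ) (w : ℂ) : ℂ :=
  (((s * Real.exp (-(l * s)) : ℝ) : ℂ) * dslope (fun u : ℂ => cexp (l * u)) 0 (w + s) -
    ((1 - Real.exp (-(l * s)) : ℝ) : ℂ)) / ((Real.cosh (l * s) - 1 : ℝ) : ℂ)

/-- the second part of the kernel -/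
noncomputable def Kp (κ : ℝ) (w : ℂ) : ℂ := (w + κ) / ((w + κ) ^ 2 - 25 / 4)

/-- the kernel -/
noncomputable def H2 (l s κ : ℝ) (w : ℂ) : ℂ := Hn l s w / (w - s) + (c0 l s : ℂ) * Kp κ w

/-- GW/P: the first part of the kernel has nonnegative real part for `re w ≤ 0` -/
def S_pos : Prop := ∀ l s : ℝ, 0 < l → 0 < s → ∀ w : ℂ, w.re ≤ 0 → 0 ≤ (Hn l s w / (w - s)).re

/-- GW/B: the size of the kernel -/
def S_bd : Prop := ∃ C : ℝ, 0 < C ∧ ∀ (l s κ : ℝ) (w : ℂ), 1 ≤ l → 0 < s → s ≤ 1 → 0 ≤ κ → κ ≤ 1 / 2 →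
  |w.re| ≤ 5 / 4 → (|w.re| = 5 / 4 ∨ 2 ≤ |w.im|) →
  ‖H2 l s κ w‖ ≤ C * (c0 l s + (1 + Real.exp (l * w.re)) / (l ^ 2 * s)) / (1 + w.im ^ 2)

/-- GW/R: the kernel and the kernel of the critical line -/
def S_bdr : Prop := ∃ C : ℝ, 0 < C ∧ ∀ (l s κ : ℝ) (w : ℂ), 1 ≤ l → 0 < s → s ≤ 1 → 0 ≤ κ → κ ≤ 1 / 2 →
  w.re = 5 / 4 → ‖H2 l s κ w + Dk l s w‖ ≤ C * (c0 l s + 1 / (l ^ 2 * s)) / (1 + w.im ^ 2)

/-- GW/L: the integral of the kernel over the left edge -/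
def S_left : Prop := ∀ l s κ : ℝ, 1 ≤ l → 0 < s → s ≤ 1 → 0 ≤ κ → κ ≤ 1 / 2 →
  Integrable (fun y : ℝ => H2 l s κ (-(5 / 4) + y * I)) ∧
    (∫ y : ℝ, H2 l s κ (-(5 / 4) + y * I)).re = Real.pi * c0 l s

/-- GW/Z: the second part of the kernel at the zeros -/
def S_zero : Prop := ∀ (κ t : ℝ) (S : Finset ℂ) (m : ℂ → ℕ),
  (∀ z ∈ S, 1 - (starRingEnd ℂ) z ∈ S ∧ m (1 - (starRingEnd ℂ) z) = m z) →
  ∑ z ∈ S, (m z : ℝ) * (Kp κ (z - (1 / 2 + κ + t * I))).re = 0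

/-- an L-function of degree `k` in the upper half plane with the Ramanujan bound and no zeros right of `1/2 + κ` -/
structure LG (k : ℕ) (A : ℝ) (lc : ℝ → ℝ) (F : ℂ → ℂ) (a : ℕ → ℂ) (κ : ℝ) : Prop where
  hk : 1 ≤ k
  hA : 1 ≤ A
  hlc : LogC lc
  good : GoodH k A lc F a
  ram : ∀ n : ℕ, ‖a n‖ ≤ k * ArithmeticFunction.vonMangoldt n
  hκ0 : 0 ≤ κ
  hκ1 : κ < 1 / 2
  rh : ∀ s : ℂ, 1 / 2 + κ < s.re → 1 ≤ s.im → F s ≠ 0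

/-- GW/C: the explicit formula with contour integrals -/
def S_cq : Prop := ∀ (k : ℕ) (A : ℝ) (lc : ℝ → ℝ) (F : ℂ → ℂ) (a : ℕ → ℂ) (κ : ℝ), LG k A lc F a κ →
  ∃ C : ℝ, 4 ≤ C ∧ ∀ t s l : ℝ, C ≤ t → 0 < s → s ≤ 1 → 1 ≤ l → Real.exp (8 * l) ≤ t →
  ∃ V1 V2 : ℝ, V1 ∈ Set.Icc (t / 2 - 1) (t / 2) ∧ V2 ∈ Set.Icc (3 * t / 2) (3 * t / 2 + 1) ∧
  (deriv F (1 / 2 + κ + s + t * I) / F (1 / 2 + κ + s + t * I)).re ≤
    1 / (2 * Real.pi) * (∫ v in V1..V2, deriv F (7 / 4 + κ + v * I) / F (7 / 4 + κ + v * I) *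
        H2 l s κ (5 / 4 + ((v - t : ℝ) : ℂ) * I)).re
    - 1 / (2 * Real.pi) * (∫ v in V1..V2, deriv F (κ - 3 / 4 + v * I) / F (κ - 3 / 4 + v * I) *
        H2 l s κ (-(5 / 4) + ((v - t : ℝ) : ℂ) * I)).re + C * (c0 l s + 1 / (l ^ 2 * s))

/-- GW/LE: the left edge -/
def S_ledge : Prop := ∀ (k : ℕ) (A : ℝ) (lc : ℝ → ℝ) (F : ℂ → ℂ) (a : ℕ → ℂ) (κ : ℝ), LG k A lc F a κ →
  ∃ C : ℝ, 0 < C ∧ ∀ t s l V1 V2 : ℝ, 4 ≤ t → 0 < s → s ≤ 1 → 1 ≤ l → Real.exp (8 * l) ≤ t →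
  V1 ∈ Set.Icc (t / 2 - 1) (t / 2) → V2 ∈ Set.Icc (3 * t / 2) (3 * t / 2 + 1) →
  -(1 / (2 * Real.pi) * (∫ v in V1..V2, deriv F (κ - 3 / 4 + v * I) / F (κ - 3 / 4 + v * I) *
        H2 l s κ (-(5 / 4) + ((v - t : ℝ) : ℂ) * I)).re) ≤
    k * Lg t / 2 * c0 l s + C * (c0 l s + 1 / (l ^ 2 * s))

/-- the coefficients of the shifted function -/
noncomputable def sh (κ : ℝ) (a : ℕ → ℂ) (n : ℕ) : ℂ := a n * ((n : ℂ) ^ (-(κ : ℂ)))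

/-- an L-function of degree `k`, possibly shifted, in the upper half plane -/
structure LB (k : ℕ) (A : ℝ) (F : ℂ → ℂ) (a : ℕ → ℂ) : Prop where
  hk : 1 ≤ k
  hA : 1 ≤ A
  an : ∀ s : ℂ, 0 < s.im → AnalyticAt ℂ F s
  lower : ∀ t : ℝ, 1 ≤ t → A⁻¹ ≤ ‖F (⟨2, t⟩ : ℂ)‖
  ha1 : ∀ n : ℕ, n ≤ 1 → a n = 0
  has : Summable (fun n : ℕ => ‖a n‖ * (n : ℝ) ^ (-(7 / 4) : ℝ))
  ha : ∑' n : ℕ, ‖a n‖ * (n : ℝ) ^ (-(7 / 4) : ℝ) ≤ A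
  ld : ∀ s : ℂ, 1 < s.re → 1 ≤ s.im → deriv F s / F s = - ∑' n : ℕ, a n * (n : ℂ) ^ (-s)
  ram : ∀ n : ℕ, ‖a n‖ ≤ k * ArithmeticFunction.vonMangoldt n

/-- GW/A3: the primes -/
def S_primq : Prop := ∀ (k : ℕ) (A : ℝ) (F : ℂ → ℂ) (a : ℕ → ℂ), LB k A F a →
  ∃ C : ℝ, 0 < C ∧ ∀ t s l V1 V2 : ℝ, 4 ≤ t → 0 < s → s ≤ 1 → 1 ≤ l → Real.exp (8 * l) ≤ t →
  V1 ∈ Set.Icc (t / 2 - 1) (t / 2) → V2 ∈ Set.Icc (3 * t / 2) (3 * t / 2 + 1) →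
  |1 / Real.pi * (∫ v in V1..V2, deriv F (7 / 4 + v * I) / F (7 / 4 + v * I) *
        Dk l s (5 / 4 + ((v - t : ℝ) : ℂ) * I)).re - 2 * PSa a l t (kk l s)| ≤ C / (l ^ 2 * s)

/-- GW/RE: the right edge -/
def S_redge : Prop := ∀ (k : ℕ) (A : ℝ) (F : ℂ → ℂ) (a : ℕ → ℂ) (κ : ℝ), LB k A F a → 0 ≤ κ → κ < 1 / 2 →
  ∃ C : ℝ, 0 < C ∧ ∀ t s l V1 V2 : ℝ, 4 ≤ t → 0 < s → s ≤ 1 → 1 ≤ l → Real.exp (8 * l) ≤ t →
  V1 ∈ Set.Icc (t / 2 - 1) (t / 2) → V2 ∈ Set.Icc (3 * t / 2) (3 * t / 2 + 1) →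
  1 / (2 * Real.pi) * (∫ v in V1..V2, deriv F (7 / 4 + v * I) / F (7 / 4 + v * I) *
        H2 l s κ (5 / 4 + ((v - t : ℝ) : ℂ) * I)).re ≤
    -PSa a l t (kk l s) + C * (c0 l s + 1 / (l ^ 2 * s))

/-- the explicit formula as an inequality -/
def CI (k : ℕ) (F : ℂ → ℂ) (a : ℕ → ℂ) : Prop :=
  ∃ C : ℝ, 3 ≤ C ∧ ∀ t s l : ℝ, C ≤ t → 0 < s → s ≤ 1 → 1 ≤ l → Real.exp (8 * l) ≤ t →
    2 * (deriv F (1 / 2 + s + t * I) / F (1 / 2 + s + t * I)).re ≤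
      (k * Lg t + C) * (Real.sinh (l * s) / (Real.cosh (l * s) - 1) - 1) - 2 * PSa a l t (kk l s) + C / (l ^ 2 * s)

/-- an L-function of degree `k`, possibly shifted, with the Riemann hypothesis and the explicit formula -/
structure LQ (k : ℕ) (A : ℝ) (F : ℂ → ℂ) (a : ℕ → ℂ) : Prop extends LB k A F a where
  rh : ∀ s : ℂ, 1 / 2 < s.re → 1 ≤ s.im → F s ≠ 0
  ci : CI k F a

/-- GW/SH: the shift -/
def S_shb : Prop := ∀ (k : ℕ) (A : ℝ) (lc : ℝ → ℝ) (F : ℂ → ℂ) (a : ℕ → ℂ) (κ : ℝ), 1 ≤ k → 1 ≤ A → GoodH k A lc F a →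
  (∀ n : ℕ, ‖a n‖ ≤ k * ArithmeticFunction.vonMangoldt n) → 0 ≤ κ → κ < 1 / 2 →
  ∃ A' : ℝ, A ≤ A' ∧ LB k A' (fun s => F (s + κ)) (sh κ a)

end Pool.Agent.N964.GW
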