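import Mathlib
import Pool.Agent.N707.GXA3
import Pool.Agent.N964.GW.Stm

set_option autoImplicit false

/-!
# Project GW: the primes (theorem `prim` of `Pool.Agent.N707.GXA3`, helper707, for shifted functions)
-/

namespace Pool.Agent.N964.GW

open Complex MeasureTheory Set Filter Topology
open Pool.Agent.N964.MX (kk)
open Pool.Agent.N964.GX (Dk PSa)
open Pool.Agent.N707.GXA3

/-- GX/A3: the primes -/
theorem primq : S_primq := by
  intro k A F a h
  have hG := h
  have h0 : a 0 = 0 := hG.ha1 0 (by norm_num)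
  have hA := h.hA
  have hA0 : 0 ≤ A := by linarith
  refine ⟨512 * A, by linarith, ?_⟩
  intro t s l V1 V2 ht hs hs1 hl hlt hV1 hV2
  have hle : V1 ≤ V2 := by linarith [hV1.2, hV2.1]
  have hV1' : 1 ≤ V1 := by linarith [hV1.1]
  have hH : Integrable (fun v : ℝ => Z a v * Dk l s (wl (v - t))) := by
    have hGt : Integrable (fun v : ℝ => Dk l s (wl (v - t))) := (G_int hl hs hs1).comp_sub_right t
    refine (hGt.norm.const_mul A).mono' (((Z_cont h0 hG.has).aestronglyMeasurable).mul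
      hGt.aestronglyMeasurable) (Eventually.of_forall fun v => ?_)
    rw [norm_mul]
    exact mul_le_mul_of_nonneg_right (Z_norm h0 hG.has hG.ha v) (norm_nonneg _)
  have h1 : (∫ v in V1..V2, deriv F (7 / 4 + v * I) / F (7 / 4 + v * I) *
        Dk l s (5 / 4 + ((v - t : ℝ) : ℂ) * I)) =
      -∫ v in Ioc V1 V2, Z a v * Dk l s (wl (v - t)) := by
    rw [intervalIntegral.integral_of_le hle, ← integral_neg]
    refine setIntegral_congr_fun measurableSet_Ioc fun v hv => ?_
    rw [hG.ld (7 / 4 + v * I) (by simp; norm_num) (by simp; linarith [hv.1]), neg_mul]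
    rfl
  have h2 := integral_add_compl (measurableSet_Ioc (a := V1) (b := V2)) hH
  have h3 := total hl hs hs1 t h0 hG.has
  have h4 := tails hl hs hs1 ht h0 hA0 hG.has hG.ha hV1.2 hV2.1
  set R := ∫ v in (Ioc V1 V2)ᶜ, Z a v * Dk l s (wl (v - t)) with hR
  set Sg : ℂ := ∑ n ∈ Finset.Icc 1 ⌊Real.exp l⌋₊, a n * (n : ℂ) ^ (-(1 / 2 + (t : ℂ) * I)) *
        ((kk l s (Real.log n) : ℝ) : ℂ) with hSg
  have h5 : PSa a l t (kk l s) = Sg.re := by
    unfold PSa
    rw [hSg]
    congr 1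
    refine Finset.sum_congr rfl fun n hn => ?_
    rw [Finset.mem_Icc] at hn
    have hn0 : (n : ℂ) ≠ 0 := by
      have : 0 < n := hn.1
      exact_mod_cast this.ne'
    have e1 : (n : ℂ) ^ (-(1 / 2 + (t : ℂ) * I)) =
        ((Real.sqrt n : ℝ) : ℂ)⁻¹ * (n : ℂ) ^ (-(t : ℂ) * I) := by
      rw [show -(1 / 2 + (t : ℂ) * I) = -(1 / 2) + -(t : ℂ) * I by ring, Complex.cpow_add _ _ hn0,
        Complex.cpow_neg, Real.sqrt_eq_rpow, Complex.ofReal_cpow (Nat.cast_nonneg n)]
      push_cast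
      rfl
    rw [e1]
    push_cast
    ring
  have h6 : (∫ v in V1..V2, deriv F (7 / 4 + v * I) / F (7 / 4 + v * I) *
        Dk l s (5 / 4 + ((v - t : ℝ) : ℂ) * I)) = 2 * Real.pi * Sg + R := by
    rw [h1]
    linear_combination (-1 : ℂ) * h2 - h3
  have hpi := Real.pi_pos
  rw [h5, h6]
  have h7 : (2 * (Real.pi : ℂ) * Sg + R).re = 2 * Real.pi * Sg.re + R.re := by
    rw [Complex.add_re]
    congr 1
    have : 2 * (Real.pi : ℂ) * Sg = ((2 * Real.pi : ℝ) : ℂ) * Sg := by push_cast; ring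
    rw [this, Complex.re_ofReal_mul]
  rw [h7]
  have h8 : 1 / Real.pi * (2 * Real.pi * Sg.re + R.re) - 2 * Sg.re = R.re / Real.pi := by
    field_simp
    ring
  rw [h8, abs_div, abs_of_pos hpi, div_le_iff₀ hpi]
  have h9 : Real.exp (5 / 4 * l) / t ≤ 1 := by
    rw [div_le_one (by linarith)]
    refine (Real.exp_le_exp.2 ?_).trans hlt
    linarith
  have h10 : 0 < l ^ 2 * s := by positivity
  calc |R.re| ≤ ‖R‖ := Complex.abs_re_le_norm R
    _ ≤ _ := h4
    _ ≤ 512 * Real.pi * A * 1 / (l ^ 2 * s) := by gcongr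
    _ = 512 * A / (l ^ 2 * s) * Real.pi := by ring

end Pool.Agent.N964.GW
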