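import Mathlib
import Pool.Agent.N964.GX.E3
import Pool.Agent.N964.GW.PT
import Pool.Agent.N607.GXB
import Pool.Agent.N394.GXC
import Pool.Agent.N50.GXtermk

set_option autoImplicit false

/-!
# Project GW: the mean
-/

namespace Pool.Agent.N964.GW

open Complex MeasureTheory Filter
open Pool.Agent.N964
open Pool.Agent.N964.MX (Dd kk ww Pl cc th cp wt kq mem_Pl Pl_mono th_le th_self g_nonneg g_le_half norm_ppow Dd_nonneg Dd_le
  ell_ge Lg_mono log_mem pow_two_ge_one first_good2 sum_w_le)
open Pool.Agent.N964.GX (PSa PA al Pa Xk Dat S_momc S_splita S_vark S_termk block pt_one Xk_eq)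
open Pool.Agent.Y23 (Lg)

lemma dat_q (h2 : MX.S_coef) (h3 : S_momc) {k : ℕ} {A : ℝ} {F : ℂ → ℂ} {a : ℕ → ℂ}
    (h : LQ k A F a) : ∃ C : ℝ, Dat k C F a := by
  obtain ⟨C1, hC1, H1⟩ := ptq h
  obtain ⟨C2, hC2, H2⟩ := h2
  obtain ⟨C3, hC3, H3⟩ := h3
  refine ⟨C1 + C2 + C3, ⟨h.hk, by linarith, fun t δ l ht hδ hδ1 hl hlt => ?_, fun l δ hl hδ hδ1 u hu hul =>
    ((H2 l δ hl hδ hδ1).1 u hu hul).1, fun l δ hl hδ hδ1 => ?_, fun X k c T hT hX => ?_, fun p hp => ?_, fun δ hδ => ?_⟩⟩
  · refine (H1 t δ l (by linarith) hδ hδ1 hl hlt).trans (Real.exp_le_exp.2 ?_)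
    have h5 : 0 ≤ 1 + Real.log l + Dd l δ := by
      have := Real.log_nonneg hl
      have := Dd_nonneg (by linarith : 0 < l) hδ
      linarith
    nlinarith
  · refine (H2 l δ hl hδ hδ1).2.2.1.trans ?_
    have h5 : 0 ≤ Real.exp (l / 2) * (1 + Dd l δ) := by
      have := Dd_nonneg (by linarith : 0 < l) hδ
      positivity
    nlinarith
  · refine (H3 X k c T hT hX).trans ?_
    have h5 : 0 ≤ T * k.factorial * (∑ p ∈ (Finset.range (X + 1)).filter Nat.Prime, ‖c p‖ ^ 2) ^ k := by
      have : 0 ≤ ∑ p ∈ (Finset.range (X + 1)).filter Nat.Prime, ‖c p‖ ^ 2 :=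
        Finset.sum_nonneg fun p _ => sq_nonneg _
      positivity
    calc C3 * T * k.factorial * (∑ p ∈ (Finset.range (X + 1)).filter Nat.Prime, ‖c p‖ ^ 2) ^ k =
        C3 * (T * k.factorial * (∑ p ∈ (Finset.range (X + 1)).filter Nat.Prime, ‖c p‖ ^ 2) ^ k) := by ring
      _ ≤ (C1 + C2 + C3) * (T * k.factorial * (∑ p ∈ (Finset.range (X + 1)).filter Nat.Prime, ‖c p‖ ^ 2) ^ k) := by
        nlinarith
      _ = _ := by ring
  · unfold al
    have h1 := h.ram p
    rw [ArithmeticFunction.vonMangoldt_apply_prime hp] at h1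
    have h2 : 0 < Real.log p := Real.log_pos (by exact_mod_cast hp.one_lt)
    rw [norm_div, Complex.norm_real, Real.norm_eq_abs, abs_of_pos h2, div_le_iff₀ h2]
    exact h1
  · intro t ht
    rw [Set.mem_Ici] at ht
    have hre : (1 / 2 + (δ : ℂ) + t * I).re = 1 / 2 + δ := by simp
    have him : (1 / 2 + (δ : ℂ) + t * I).im = t := by simp
    have h0 : F (1 / 2 + δ + t * I) ≠ 0 := h.rh _ (by rw [hre]; linarith) (by rw [him]; exact ht)
    have h1 : ContinuousAt F (1 / 2 + δ + t * I) := (h.an _ (by rw [him]; linarith)).continuousAt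
    have h2 : ContinuousAt (fun t : ℝ => F (1 / 2 + δ + t * I)) t :=
      ContinuousAt.comp (f := fun t : ℝ => (1 / 2 + δ + t * I : ℂ)) (g := F) h1 (by fun_prop)
    exact (h2.norm.inv₀ (norm_ne_zero_iff.2 h0)).continuousWithinAt

theorem mean_q {k : ℕ} {A : ℝ} {F : ℂ → ℂ} {a : ℕ → ℂ} (h : LQ k A F a) :
    ∃ C δ0 : ℝ, 3 ≤ C ∧ 0 < δ0 ∧ δ0 ≤ 1 / 4 ∧ ∀ T δ : ℝ, C ≤ T → 0 < δ → δ ≤ δ0 → Lg T ≤ 1 / δ ^ (k + 2) →
    ∫ t in C..T, ‖F (1 / 2 + δ + t * I)‖⁻¹ ≤ T * Real.exp (C * Xk k δ) := by
  obtain ⟨C, D⟩ := dat_q Pool.Agent.N99.MXD.coef Pool.Agent.N607.GXB.momc h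
  obtain ⟨K, δ0, hK, hδ00, hδ04, hδ0m, HK⟩ := block D Pool.Agent.N394.GXC.splita Pool.Agent.N394.GXC.vark
    Pool.Agent.N50.GX.termk
  have hC := D.pos
  have hC0 : 0 < C := by linarith
  have hk1 : (1 : ℝ) ≤ k := by exact_mod_cast D.hk
  set M := K + 2 * k + (3 + 6 * k) * C with hM
  have hM0 : 0 < M := by positivity
  set S := 5 * C + Real.exp 8 with hS
  have he8 : 0 < Real.exp 8 := Real.exp_pos _
  have hS15 : 15 ≤ S := by linarith
  refine ⟨M + 1 + S, δ0, by linarith, hδ00, hδ04, fun T δ hT hδ hδd hLT => ?_⟩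
  have hδ4 : δ ≤ 1 / 4 := hδd.trans hδ04
  have hℓ := ell_ge hδ hδ4
  set m := Real.log (1 / δ) with hm
  have hmm0 : Real.log (1 / δ0) ≤ m := Real.log_le_log (by positivity) (one_div_le_one_div_of_le hδ hδd)
  obtain ⟨hm400, f1⟩ := hδ0m m hmm0
  have hmp : 0 < m := by linarith
  set X := Xk k δ with hX
  have hXe : X = Real.exp (k * m) / m ^ (k + 1) := Xk_eq hδ
  have hX3 : 1 / (δ ^ k * m ^ (k + 2)) = X / m := by
    rw [hX]; unfold Xk
    rw [← hm, div_div, mul_assoc, ← pow_succ]
  have hekm : Real.exp m ≤ Real.exp (k * m) := Real.exp_le_exp.2 (by nlinarith)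
  have hXm : Real.exp (m / 2) ≤ X / m := by
    rw [hXe, div_div, ← pow_succ, le_div_iff₀ (by positivity)]
    calc Real.exp (m / 2) * m ^ (k + 1 + 1) ≤ Real.exp (m / 2) * Real.exp (m / 2) := by gcongr
      _ = Real.exp m := by rw [← Real.exp_add]; congr 1; ring
      _ ≤ _ := hekm
  have hXm200 : 200 ≤ X / m := by
    have := Real.add_one_le_exp (m / 2)
    linarith
  have hmX : m ≤ X := by
    rw [le_div_iff₀ hmp] at hXm200
    nlinarith
  have hX0 : 0 < X := by linarith
  set g : ℝ → ℝ := fun t => ‖F (1 / 2 + δ + t * I)‖⁻¹ with hg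
  have hgc : ContinuousOn g (Set.Ici 1) := D.cont δ hδ
  have hg0 : ∀ t, 0 ≤ g t := fun t => inv_nonneg.2 (norm_nonneg _)
  have hgi : ∀ u v : ℝ, 1 ≤ u → 1 ≤ v → IntervalIntegrable g volume u v := by
    intro u v hu hv
    refine (hgc.mono ?_).intervalIntegrable
    intro x hx
    rw [Set.mem_uIcc] at hx
    rw [Set.mem_Ici]
    rcases hx with hx | hx <;> linarith [hx.1]
  have hpt : ∀ T t : ℝ, Lg T ≤ X / m → S ≤ t → t ≤ T → g t ≤ Real.exp (M * X) := by
    intro T t h6 h7 h8
    refine (pt_one D hδ hδ4 (by linarith) (by linarith)).trans (Real.exp_le_exp.2 ?_)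
    rw [← hm]
    have h9 : Lg t ≤ Lg T := Lg_mono (by rw [abs_of_nonneg (by linarith)]; exact h8)
    have h10 : (2 * k * Lg t + (3 + 6 * k) * C) * m ≤ (2 * k * (X / m) + (3 + 6 * k) * C) * m := by
      gcongr
      linarith
    have h11 : (2 * k * (X / m) + (3 + 6 * k) * C) * m = 2 * k * X + (3 + 6 * k) * C * m := by field_simp
    have h12 : (3 + 6 * k) * C * m ≤ (3 + 6 * k) * C * X := by gcongr
    have h13 : 0 ≤ K * X := by positivity
    rw [hM]
    nlinarith
  have key : ∀ n : ℕ, ∀ T : ℝ, S ≤ T → T ≤ S * 2 ^ n → Lg T ≤ 1 / δ ^ (k + 2) → ∫ t in S..T, g t ≤ 2 * T * Real.exp (M * X) := by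
    intro n
    induction n with
    | zero =>
      intro T hT hT3 _
      have : T = S := le_antisymm (by simpa using hT3) hT
      rw [this, intervalIntegral.integral_same]
      positivity
    | succ n ih =>
      intro T hT hTn hLT
      have hT0 : 0 < T := by linarith
      rcases le_or_gt (Lg T) (X / m) with h4 | h4
      · have i1 : ∫ t in S..T, g t ≤ ∫ t in S..T, Real.exp (M * X) := by
          refine intervalIntegral.integral_mono_on hT (hgi _ _ (by linarith) (by linarith)) (continuous_const.intervalIntegrable _ _) ?_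
          intro t ht
          exact hpt T t h4 ht.1 ht.2
        rw [intervalIntegral.integral_const, smul_eq_mul] at i1
        refine i1.trans (mul_le_mul_of_nonneg_right ?_ (Real.exp_pos _).le)
        linarith
      · obtain ⟨R, hR1, hR2, hR3, hR4⟩ := HK T δ (by linarith) hδ hδd (by rw [← hm, hX3]; exact h4.le) hLT
        rw [← hX] at hR4
        have h7 : T * Real.exp (K * X) ≤ T * Real.exp (M * X) := by
          refine mul_le_mul_of_nonneg_left (Real.exp_le_exp.2 ?_) (by linarith)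
          refine mul_le_mul_of_nonneg_right ?_ hX0.le
          have : 0 ≤ (3 + 6 * (k : ℝ)) * C := by positivity
          rw [hM]; linarith
        have hblk : ∀ u : ℝ, T / 2 ≤ u → 1 ≤ u → u ≤ T → ∫ t in u..T, g t ≤ T * Real.exp (K * X) := by
          intro u hu hu1 huT
          have i2 : ∫ t in u..T, g t ≤ ∫ t in u..T, R t := by
            refine intervalIntegral.integral_mono_on huT (hgi _ _ hu1 (by linarith)) (hR1.intervalIntegrable _ _) ?_
            intro t ht
            exact hR3 t (by linarith [ht.1]) ht.2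
          have i3 : ∫ t in u..T, R t ≤ ∫ t in (-(3 + T))..(3 + T), R t := by
            have s1 : ∀ a b : ℝ, a ≤ b → 0 ≤ ∫ t in a..b, R t := fun a b hab =>
              intervalIntegral.integral_nonneg hab fun t _ => hR2 t
            have s2 : ∫ t in (-(3 + T))..(3 + T), R t = (∫ t in (-(3 + T))..u, R t) + (∫ t in u..T, R t) + (∫ t in T..(3 + T), R t) := by
              rw [intervalIntegral.integral_add_adjacent_intervals (hR1.intervalIntegrable _ _) (hR1.intervalIntegrable _ _),
                intervalIntegral.integral_add_adjacent_intervals (hR1.intervalIntegrable _ _) (hR1.intervalIntegrable _ _)]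
            rw [s2]
            have := s1 (-(3 + T)) u (by linarith)
            have := s1 T (3 + T) (by linarith)
            linarith
          linarith
        rcases le_or_gt (T / 2) S with h5 | h5
        · have := hblk S h5 (by linarith) hT
          have h8 : 0 ≤ T * Real.exp (M * X) := by positivity
          linarith
        · have hLL : Lg (T / 2) ≤ Lg T := Lg_mono (by rw [abs_of_nonneg (by linarith)]; linarith)
          have h6 := ih (T / 2) h5.le (by rw [pow_succ] at hTn; linarith) (hLL.trans hLT)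
          have h8 := hblk (T / 2) le_rfl (by linarith) (by linarith)
          have s2 : ∫ t in S..T, g t = (∫ t in S..(T / 2), g t) + (∫ t in (T / 2)..T, g t) := by
            rw [intervalIntegral.integral_add_adjacent_intervals (hgi _ _ (by linarith) (by linarith)) (hgi _ _ (by linarith) (by linarith))]
          rw [s2]
          linarith
  have hT' : S ≤ T := by linarith
  obtain ⟨n, hn⟩ := pow_unbounded_of_one_lt T (one_lt_two)
  have h7 := key n T hT' (by
    have : (0 : ℝ) < 2 ^ n := by positivity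
    nlinarith) hLT
  have h8 : ∫ t in (M + 1 + S)..T, g t ≤ ∫ t in S..T, g t := by
    have s2 : ∫ t in S..T, g t = (∫ t in S..(M + 1 + S), g t) + (∫ t in (M + 1 + S)..T, g t) := by
      rw [intervalIntegral.integral_add_adjacent_intervals (hgi _ _ (by linarith) (by linarith)) (hgi _ _ (by linarith) (by linarith))]
    have s1 : 0 ≤ ∫ t in S..(M + 1 + S), g t := intervalIntegral.integral_nonneg (by linarith) fun t _ => hg0 t
    rw [s2]
    linarith
  refine h8.trans (h7.trans ?_)
  have h9 : 2 ≤ Real.exp X := by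
    have := Real.add_one_le_exp X
    linarith
  have h10 : 2 * T * Real.exp (M * X) ≤ T * (Real.exp X * Real.exp (M * X)) := by
    have h11 := Real.exp_pos (M * X)
    nlinarith [mul_le_mul_of_nonneg_right h9 (mul_nonneg (by linarith : 0 ≤ T) h11.le)]
  refine h10.trans (mul_le_mul_of_nonneg_left ?_ (by linarith))
  rw [← Real.exp_add, Real.exp_le_exp]
  nlinarith [mul_pos (by linarith : 0 < S) hX0]


end Pool.Agent.N964.GW
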