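import Mathlib
import Pool.Agent.N951.GXT
import Pool.Agent.N669.GXH
import Pool.Agent.N964.GW.PT

set_option autoImplicit false

/-!
# Project GW: very large heights (`Pool.Agent.N951.GXT`, helper951) and growth (`Pool.Agent.N669.GXH`, helper669) for
shifted functions
-/

namespace Pool.Agent.N964.GW

open Complex
open Pool.Agent.N964.GX (PSa PA al Pa)
open Pool.Agent.N964.MX (Dd kk ww Pl cc th cp wt kq)
open Pool.Agent.Y23 (Lg)

section

open Pool.Agent.N951.GXT

/-- very large heights -/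
theorem tailq {k : ℕ} {A : ℝ} {F : ℂ → ℂ} {a : ℕ → ℂ} (hF : LQ k A F a) :
    ∃ δ1 : ℝ, 0 < δ1 ∧ δ1 ≤ 1 / 4 ∧ ∀ δ t : ℝ, 0 < δ → δ ≤ δ1 → 3 ≤ t → 1 / δ ^ (k + 2) ≤ Lg t →
    ‖F (1 / 2 + δ + t * I)‖⁻¹ ≤ t ^ (1 - 1 / ((k : ℝ) + 2)) := by
  obtain ⟨C0, hC0, hpt⟩ := ptq hF
  obtain ⟨C1, hC1, hcoef⟩ := Pool.Agent.N99.MXD.coef
  have hk0 : (0 : ℝ) ≤ k := Nat.cast_nonneg k
  have hk1 : (1 : ℝ) ≤ k := by exact_mod_cast hF.hk
  -- the threshold
  set L0 : ℝ := (1 + 9 * (((k : ℝ) + 2) * C0) + 5 * (((k : ℝ) + 2) * (k * C1)) + ((k : ℝ) + 2)) ^ 4 +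
    Real.exp ((k : ℝ) + 3) + 2 * 362880 + Real.log (3 + C0) with hL0
  have hlogC : 0 ≤ Real.log (3 + C0) := Real.log_nonneg (by linarith)
  have hp1 : 0 ≤ (1 + 9 * (((k : ℝ) + 2) * C0) + 5 * (((k : ℝ) + 2) * (k * C1)) +
    ((k : ℝ) + 2)) ^ 4 := by positivity
  have hp2 := Real.exp_pos ((k : ℝ) + 3)
  have hL0pos : 2 * 362880 ≤ L0 := by
    rw [hL0]
    linarith
  refine ⟨1 / L0, by positivity, ?_, ?_⟩
  · rw [div_le_div_iff₀ (by linarith) (by norm_num)]
    linarith
  intro δ t hδ hδ1 ht hLt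
  -- size of `L`
  have hδ1' : δ ≤ 1 := hδ1.trans (by rw [div_le_one (by linarith)]; linarith)
  have hL : L0 ≤ Lg t := by
    have h1 : L0 ≤ 1 / δ := by
      rw [le_div_iff₀ hδ]
      rw [le_div_iff₀ (by linarith)] at hδ1
      linarith
    have h2 : 1 / δ ≤ 1 / δ ^ (k + 2) := by
      apply one_div_le_one_div_of_le (by positivity)
      have := pow_le_pow_of_le_one hδ.le hδ1' (by omega : 1 ≤ k + 2)
      rwa [pow_one] at this
    linarith
  set L := Lg t with hLdef
  have hLpos : 0 < L := by linarith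
  have hexpL : Real.exp L = 3 + t := by
    rw [hLdef]
    unfold Lg
    rw [abs_of_nonneg (by linarith), Real.exp_log (by linarith)]
  have ht3 : t = Real.exp L - 3 := by linarith
  set u := Real.log L with hu
  have hexpu : Real.exp u = L := Real.exp_log hLpos
  have huk : (k : ℝ) + 3 ≤ u := by
    rw [hu, Real.le_log_iff_exp_le hLpos]
    rw [hL0] at hL
    linarith
  have hu0 : 0 < u := by linarith
  -- hypotheses of `S_pt`
  have hCt : C0 ≤ t := by
    have h1 : Real.log (3 + C0) ≤ L := by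
      rw [hL0] at hL
      linarith
    have h2 := Real.exp_le_exp.2 h1
    rw [Real.exp_log (by linarith), hexpL] at h2
    linarith
  have h8 : Real.exp (8 * u) ≤ t := by
    have e1 : Real.exp (8 * u) = L ^ 8 := by
      rw [show (8 : ℝ) * u = ((8 : ℕ) : ℝ) * u by norm_num, Real.exp_nat_mul, hexpu]
    rw [e1, ht3]
    have h1 := Real.pow_div_factorial_le_exp L hLpos.le 9
    have h2 : (Nat.factorial 9 : ℝ) = 362880 := by norm_num [Nat.factorial]
    rw [h2] at h1
    have h3 : 2 * L ^ 8 ≤ L ^ 9 / 362880 := by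
      rw [le_div_iff₀ (by norm_num)]
      have : L ^ 9 = L ^ 8 * L := by ring
      rw [this]
      have h4 : 0 < L ^ 8 := by positivity
      nlinarith
    have h5 : 3 ≤ L ^ 8 := by
      have h6 : (3 : ℝ) ≤ L := by linarith
      have h7 : L ≤ L ^ 8 := by
        have := pow_le_pow_right₀ (by linarith : (1 : ℝ) ≤ L) (by norm_num : 1 ≤ 8)
        rwa [pow_one] at this
      linarith
    linarith
  refine (hpt t δ u hCt hδ hδ1' (by linarith) h8).trans ?_
  -- the bounds
  have hDd : Dd u δ ≤ u / (k + 2) := Dd_le k u δ huk hδ (by rw [hexpu]; exact hLt)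
  have hDd0 : 0 ≤ Dd u δ := Pool.Agent.N99.MXD.Dd_nonneg (by linarith) hδ
  have hDu : Dd u δ ≤ u := hDd.trans (div_le_self hu0.le (by linarith))
  have hlogu : Real.log u ≤ u := (Real.log_le_sub_one_of_pos hu0).trans (by linarith)
  obtain ⟨c1, -, c3, -⟩ := hcoef u δ (by linarith) hδ hδ1'
  have hPA : ‖PA a u δ t‖ ≤ k * C1 * (Real.sqrt L * (1 + u)) := by
    unfold PA
    refine (norm_sum_le _ _).trans ?_
    have h1 : ∀ p ∈ Pl u, ‖(((cc u δ p : ℝ) : ℂ) * al a p) * (p : ℂ) ^ (-(t : ℂ) * I)‖ ≤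
        k * cc u δ p := by
      intro p hp
      rw [Pool.Agent.N964.MX.mem_Pl] at hp
      have hp1 : (1 : ℝ) < p := by exact_mod_cast hp.2.one_lt
      have hlp : 0 < Real.log p := Real.log_pos hp1
      rw [norm_mul, norm_mul, Pool.Agent.N964.MX.norm_ppow hp.2.ne_zero, mul_one]
      have hcc : 0 ≤ cc u δ p := by
        unfold cc
        apply mul_nonneg (div_nonneg hlp.le (Real.sqrt_nonneg _))
        exact (c1 (Real.log p) hlp (Pool.Agent.N964.MX.log_mem hp.2.one_lt.le hp.1)).1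
      rw [Complex.norm_real, Real.norm_of_nonneg hcc, mul_comm]
      apply mul_le_mul_of_nonneg_right _ hcc
      unfold al
      rw [norm_div, Complex.norm_real, Real.norm_of_nonneg hlp.le, div_le_iff₀ hlp]
      have := hF.ram p
      rwa [ArithmeticFunction.vonMangoldt_apply_prime hp.2] at this
    refine (Finset.sum_le_sum h1).trans ?_
    rw [← Finset.mul_sum, mul_assoc]
    apply mul_le_mul_of_nonneg_left _ hk0
    refine c3.trans ?_
    have e1 : Real.exp (u / 2) = Real.sqrt L := by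
      rw [Real.sqrt_eq_rpow, Real.rpow_def_of_pos hLpos, ← hu]
      congr 1
      ring
    rw [e1, mul_assoc]
    apply mul_le_mul_of_nonneg_left _ hC1.le
    exact mul_le_mul_of_nonneg_left (by linarith) (Real.sqrt_nonneg _)
  have hnum := num (((k : ℝ) + 2) * C0) (((k : ℝ) + 2) * (k * C1)) ((k : ℝ) + 2) L (by positivity)
    (by positivity) (by positivity) (by
      rw [hL0] at hL
      linarith)
  rw [← hu] at hnum
  -- conclusion
  have ht0 : 0 < t := by linarith
  rw [Real.rpow_def_of_pos ht0, Real.exp_le_exp]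
  have hlogt : L - 1 ≤ Real.log t := by
    have h1 : L ≤ Real.log (2 * t) := by
      rw [hLdef]
      unfold Lg
      rw [abs_of_nonneg ht0.le]
      exact Real.log_le_log (by linarith) (by linarith)
    rw [Real.log_mul (by norm_num) ht0.ne'] at h1
    have h2 : Real.log 2 ≤ 1 := by
      have := Real.log_two_lt_d9
      linarith
    linarith
  have hmain : k * L / u * Dd u δ ≤ k * L / (k + 2) := by
    have h1 : k * L / u * Dd u δ ≤ k * L / u * (u / (k + 2)) :=
      mul_le_mul_of_nonneg_left hDd (by positivity)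
    refine h1.trans (le_of_eq ?_)
    field_simp
  have hsec : C0 * (1 + Real.log u + Dd u δ) ≤ C0 * (1 + 2 * u) :=
    mul_le_mul_of_nonneg_left (by linarith) (by linarith)
  have hk2 : (0 : ℝ) < (k : ℝ) + 2 := by linarith
  have hfin : k * L / (k + 2) + C0 * (1 + 2 * u) + k * C1 * (Real.sqrt L * (1 + u)) ≤
      (L - 1) * (1 - 1 / ((k : ℝ) + 2)) := by
    have e1 : (L - 1) * (1 - 1 / ((k : ℝ) + 2)) = (L - 1) * (k + 1) / (k + 2) := by
      field_simp
      ring
    rw [e1, le_div_iff₀ hk2]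
    have e2 : (k * L / (k + 2) + C0 * (1 + 2 * u) + k * C1 * (Real.sqrt L * (1 + u))) * (k + 2) =
        k * L + ((k : ℝ) + 2) * C0 * (1 + 2 * u) +
          ((k : ℝ) + 2) * (k * C1) * (Real.sqrt L * (1 + u)) := by
      field_simp
    rw [e2]
    nlinarith
  have hpos : 0 ≤ 1 - 1 / ((k : ℝ) + 2) := by
    rw [sub_nonneg, div_le_one hk2]
    linarith
  have hlast : (L - 1) * (1 - 1 / ((k : ℝ) + 2)) ≤ Real.log t * (1 - 1 / ((k : ℝ) + 2)) :=
    mul_le_mul_of_nonneg_right hlogt hpos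
  linarith

end

section

open Pool.Agent.N669.GX (Dd_nn Dd_le' Dd_anti)

/-- the bound in the upper half plane -/
theorem upq {k : ℕ} {A : ℝ} {F : ℂ → ℂ} {a : ℕ → ℂ} (h : LQ k A F a)
    {δ : ℝ} (hδ : 0 < δ) (hδ1 : δ ≤ 1) : ∃ C R : ℝ, 0 < C ∧ 1 ≤ R ∧ ∀ t δ' : ℝ, R ≤ t → δ ≤ δ' →
      δ' ≤ 1 → ‖F (1 / 2 + δ' + t * I)‖⁻¹ ≤ C * (1 + |t|) ^ (1 / 2 : ℝ) := by
  obtain ⟨C1, hC1, h1⟩ := ptq h
  obtain ⟨C0, hC0, h0⟩ := Pool.Agent.N99.MXD.coef
  have hk : (1 : ℝ) ≤ k := by exact_mod_cast h.hk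
  set l : ℝ := 1 + 2 * k / δ with hl
  have hl1 : 1 ≤ l := by
    have : 0 < 2 * (k : ℝ) / δ := by positivity
    linarith
  have hl2 : 2 * k / δ ≤ l := by linarith
  have hD0 := Dd_nn hl1 hδ
  have hlog : 0 ≤ Real.log l := Real.log_nonneg hl1
  have hcoef : k / l * Dd l δ ≤ 1 / 2 := by
    have e1 : k / l * Dd l δ ≤ k / l * (1 / (l * δ)) := by
      gcongr
      exact Dd_le' hl1 hδ
    have e2 : k / l * (1 / (l * δ)) ≤ 1 / 2 := by
      have hlp : 0 < l := by linarith
      rw [div_mul_div_comm, div_le_div_iff₀ (by positivity) (by norm_num)]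
      have e3 : 2 * (k : ℝ) ≤ l * δ := by
        rw [div_le_iff₀ hδ] at hl2
        exact hl2
      have e4 : l * δ ≤ l * (l * δ) := by
        have : 0 ≤ l * δ := by positivity
        nlinarith
      linarith
    exact e1.trans e2
  refine ⟨2 * Real.exp (C1 * (1 + Real.log l + Dd l δ) + k * (C0 * Real.exp (l / 2) * (1 + Dd l δ))),
    max (max C1 (Real.exp (8 * l))) 1, by positivity, le_max_right _ _, ?_⟩
  intro t δ' ht h2 h3
  have ht1 : C1 ≤ t := (le_max_left _ _).trans ((le_max_left _ _).trans ht)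
  have ht2 : Real.exp (8 * l) ≤ t := (le_max_right _ _).trans ((le_max_left _ _).trans ht)
  have ht0 : 0 < t := by linarith
  have hδ' : 0 < δ' := hδ.trans_le h2
  have hb := h1 t δ' l ht1 hδ' h3 hl1 ht2
  have hDD := Dd_anti hl1 hδ h2
  have hD0' := Dd_nn hl1 hδ'
  obtain ⟨hw, -, hs, -⟩ := h0 l δ' hl1 hδ' h3
  have hPA : ‖PA a l δ' t‖ ≤ k * (C0 * Real.exp (l / 2) * (1 + Dd l δ)) := by
    unfold PA
    calc ‖∑ p ∈ Pl l, (((cc l δ' p : ℝ) : ℂ) * al a p) * (p : ℂ) ^ (-(t : ℂ) * I)‖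
        ≤ ∑ p ∈ Pl l, ‖(((cc l δ' p : ℝ) : ℂ) * al a p) * (p : ℂ) ^ (-(t : ℂ) * I)‖ := norm_sum_le _ _
      _ ≤ ∑ p ∈ Pl l, k * cc l δ' p := by
          refine Finset.sum_le_sum fun p hp => ?_
          simp only [Pl, Finset.mem_filter, Finset.mem_range] at hp
          have hpp : p.Prime := hp.2
          have hp0 : (0 : ℝ) < p := by exact_mod_cast hpp.pos
          have hlp : 0 < Real.log p := Real.log_pos (by exact_mod_cast hpp.one_lt)
          have hlp2 : Real.log p ≤ l := by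
            rw [Real.log_le_iff_le_exp hp0]
            exact (Nat.le_floor_iff (Real.exp_pos l).le).1 (by omega)
          have hww := (hw _ hlp hlp2).1
          have hcc : 0 ≤ cc l δ' p := by
            unfold cc
            positivity
          have hal : ‖al a p‖ ≤ k := by
            unfold al
            rw [norm_div, Complex.norm_real, Real.norm_of_nonneg hlp.le, div_le_iff₀ hlp]
            have := h.ram p
            rwa [ArithmeticFunction.vonMangoldt_apply_prime hpp] at this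
          have hn : ‖(p : ℂ) ^ (-(t : ℂ) * I)‖ = 1 := by
            rw [Complex.norm_natCast_cpow_of_pos hpp.pos]
            simp
          rw [norm_mul, norm_mul, hn, mul_one, Complex.norm_real, Real.norm_of_nonneg hcc, mul_comm]
          gcongr
      _ = k * ∑ p ∈ Pl l, cc l δ' p := by rw [Finset.mul_sum]
      _ ≤ k * (C0 * Real.exp (l / 2) * (1 + Dd l δ)) := by
          refine mul_le_mul_of_nonneg_left (hs.trans ?_) (by linarith)
          gcongr
  have hLg : 0 ≤ Lg t := by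
    unfold Lg
    exact Real.log_nonneg (by linarith [abs_nonneg t])
  have hLgk : k * Lg t / l * Dd l δ' ≤ 1 / 2 * Lg t := by
    have hlp : 0 < l := by linarith
    calc k * Lg t / l * Dd l δ' ≤ k * Lg t / l * Dd l δ := by gcongr
      _ = (k / l * Dd l δ) * Lg t := by ring
      _ ≤ 1 / 2 * Lg t := by gcongr
  have hCC : C1 * (1 + Real.log l + Dd l δ') ≤ C1 * (1 + Real.log l + Dd l δ) := by
    have : 0 < C1 := by linarith
    gcongr
  calc ‖F (1 / 2 + δ' + t * I)‖⁻¹
      ≤ Real.exp (k * Lg t / l * Dd l δ' + C1 * (1 + Real.log l + Dd l δ') + ‖PA a l δ' t‖) := hb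
    _ ≤ Real.exp (1 / 2 * Lg t + (C1 * (1 + Real.log l + Dd l δ) +
          k * (C0 * Real.exp (l / 2) * (1 + Dd l δ)))) := by
        apply Real.exp_le_exp.2
        linarith
    _ = (3 + |t|) ^ (1 / 2 : ℝ) * Real.exp (C1 * (1 + Real.log l + Dd l δ) +
          k * (C0 * Real.exp (l / 2) * (1 + Dd l δ))) := by
        rw [Real.exp_add]
        congr 1
        rw [Real.rpow_def_of_pos (by positivity)]
        unfold Lg
        ring_nf
    _ ≤ (2 * (1 + |t|) ^ (1 / 2 : ℝ)) * Real.exp (C1 * (1 + Real.log l + Dd l δ) +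
          k * (C0 * Real.exp (l / 2) * (1 + Dd l δ))) := by
        gcongr
        have e1 : (2 : ℝ) = (4 : ℝ) ^ (1 / 2 : ℝ) := by
          rw [show (4 : ℝ) = 2 ^ (2 : ℝ) by norm_num, ← Real.rpow_mul (by norm_num)]
          norm_num
        calc (3 + |t|) ^ (1 / 2 : ℝ) ≤ (4 * (1 + |t|)) ^ (1 / 2 : ℝ) := by
              apply Real.rpow_le_rpow (by positivity) _ (by norm_num)
              linarith [abs_nonneg t]
          _ = 2 * (1 + |t|) ^ (1 / 2 : ℝ) := by
              rw [Real.mul_rpow (by norm_num) (by positivity), ← e1]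
    _ = _ := by ring

end

end Pool.Agent.N964.GW
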