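import Mathlib
import Pool.Agent.N964.GW.E
import Pool.Agent.N964.GW.T
import Pool.Agent.N964.GX.Dir
import Pool.Agent.N342.GXLow
import Pool.Agent.N669.GXJ
import Pool.Agent.N669.GXH
import Pool.Agent.N521.GXF
import Pool.Agent.N157.GXK
import Pool.Agent.N702.GX.CV

set_option autoImplicit false

/-!
# Project GW: the direct part and the converse for shifted functions

After `Pool.Agent.N342.GXLow` (helper342), `Pool.Agent.N669.GXH`, `Pool.Agent.N669.GXJ` (helper669), `Pool.Agent.N964.GX.Dir`,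
`Pool.Agent.N702.GX.CV` (helper702).
-/

namespace Pool.Agent.N964.GW

/-- an L-function of degree `k` with a pole of order at most `r`, shifted such that the pole is at `p`: `F` in the upper
half plane and its conjugate `F'`, and the coefficients `b` of `1 / F` -/
structure LW (k r : ℕ) (A p : ℝ) (F F' E : ℂ → ℂ) (a a' b : ℕ → ℂ) : Prop where
  hp0 : 1 / 2 < p
  hp1 : p ≤ 1
  good : LB k A F a
  good' : LB k A F' a'
  hconj : ∀ s : ℂ, F' s = (starRingEnd ℂ) (F ((starRingEnd ℂ) s))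
  ent : Differentiable ℂ E
  hE : ∀ s : ℂ, s ≠ p → E s = (s - p) ^ r * F s
  h1 : r = 0 ∨ E p ≠ 0
  sb : ∀ s : ℂ, 1 < s.re → LSeriesSummable b s
  hb : ∀ s : ℂ, 1 < s.re → F s * LSeries b s = 1
  ci : (∀ s : ℂ, 1 / 2 < s.re → E s ≠ 0) → CI k F a ∧ CI k F' a'

/-- the reciprocal -/
noncomputable def fip (r : ℕ) (p : ℝ) (E : ℂ → ℂ) (s : ℂ) : ℂ := (s - p) ^ r / E s

section

open Complex Filter Topology Set
open Pool.Agent.N342.GXLow (P P_mono P_union P_local)

/-- small heights -/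
theorem lowq (r : ℕ) {p : ℝ} (hp0 : 1 / 2 < p) (hp1 : p ≤ 1) {E : ℂ → ℂ} (hE : Differentiable ℂ E)
    (hz : ∀ s : ℂ, 1 / 2 < s.re → E s ≠ 0) (R : ℝ) : ∃ C : ℝ, 0 < C ∧ ∀ t δ : ℝ, |t| ≤ R → 0 < δ → δ ≤ 1 →
    ‖fip r p E (1 / 2 + δ + t * I)‖ ≤ Real.exp (C * (1 + Real.log (1 / δ))) := by
  have hK : IsCompact (Set.Icc (1 / 2 : ℝ) (3 / 2) ×ℂ Set.Icc (-|R|) |R|) :=
    isCompact_Icc.reProdIm isCompact_Icc
  have hP : P E (Set.Icc (1 / 2 : ℝ) (3 / 2) ×ℂ Set.Icc (-|R|) |R|) := by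
    refine hK.induction_on (p := P E) ⟨0, 1, one_pos, by simp⟩ (fun S T h => P_mono h)
      (fun S T => P_union) ?_
    intro w hw
    obtain ⟨U, hU, hPU⟩ := P_local hE hz w hw.1.1
    exact ⟨U, mem_nhdsWithin_of_mem_nhds hU, hPU⟩
  obtain ⟨n, c, hc, H⟩ := hP
  obtain ⟨M, hM⟩ : ∃ M : ℝ, M = (1 + |R|) ^ r := ⟨_, rfl⟩
  have hM0 : 0 < M := by rw [hM]; positivity
  refine ⟨(n : ℝ) + |Real.log (M / c)| + 1, by positivity, ?_⟩
  intro t δ ht hδ hδ1
  have htR : |t| ≤ |R| := ht.trans (le_abs_self R)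
  set s : ℂ := 1 / 2 + δ + t * I with hs
  have hre : s.re = 1 / 2 + δ := by simp [hs]
  have him : s.im = t := by simp [hs]
  have h1 := H s ⟨⟨by rw [hre]; linarith, by rw [hre]; linarith⟩,
    ⟨by rw [him]; exact (abs_le.1 htR).1, by rw [him]; exact (abs_le.1 htR).2⟩⟩
    (by rw [hre]; linarith) (by rw [hre]; linarith)
  rw [hre, show (1 / 2 + δ - 1 / 2 : ℝ) = δ by ring] at h1
  have hcd : 0 < c * δ ^ n := by positivity
  have h2 : ‖s - p‖ ≤ 1 + |R| := by
    have e : s - p = ((δ + 1 / 2 - p : ℝ) : ℂ) + (t : ℂ) * I := by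
      rw [hs]; push_cast; ring
    rw [e]
    refine (norm_add_le _ _).trans ?_
    rw [Complex.norm_real, norm_mul, Complex.norm_real, Complex.norm_I, mul_one,
      Real.norm_eq_abs, Real.norm_eq_abs]
    have : |δ + 1 / 2 - p| ≤ 1 := by rw [abs_le]; constructor <;> linarith
    linarith
  have h3 : ‖fip r p E s‖ ≤ M / (c * δ ^ n) := by
    rw [fip, norm_div, norm_pow, hM]
    exact div_le_div₀ (by positivity) (pow_le_pow_left₀ (norm_nonneg _) h2 r) hcd h1
  refine h3.trans ?_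
  have hlog : 0 ≤ Real.log (1 / δ) := Real.log_nonneg (by
    rw [le_div_iff₀ hδ]; linarith)
  have h4 : M / (c * δ ^ n) = Real.exp (Real.log (M / c) + n * Real.log (1 / δ)) := by
    rw [Real.exp_add, Real.exp_log (by positivity), mul_comm (n : ℝ), Real.exp_mul,
      Real.exp_log (by positivity), Real.rpow_natCast, one_div, inv_pow, div_mul_eq_div_div,
      div_eq_mul_inv (M / c)]
  rw [h4]
  apply Real.exp_le_exp.2
  have h5 := le_abs_self (Real.log (M / c))
  have h6 : 0 ≤ |Real.log (M / c)| := abs_nonneg _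
  have h7 : 0 ≤ (n : ℝ) := Nat.cast_nonneg n
  nlinarith [mul_nonneg h6 hlog, mul_nonneg h7 hlog]

end

section

open Complex
open Pool.Agent.N964.MX (Dd)
open Pool.Agent.Y23 (Lg)

theorem fip_eq {k r : ℕ} {A p : ℝ} {F F' E : ℂ → ℂ} {a a' b : ℕ → ℂ}
    (h : LW k r A p F F' E a a' b) {s : ℂ} (hs : s ≠ p) : fip r p E s = (F s)⁻¹ := by
  unfold fip
  rw [h.hE s hs]
  have : (s - p) ^ r ≠ 0 := pow_ne_zero _ (sub_ne_zero.2 hs)
  by_cases hF : F s = 0
  · simp [hF]
  · field_simp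

lemma F_ne {k r : ℕ} {A p : ℝ} {F F' E : ℂ → ℂ} {a a' b : ℕ → ℂ} (H : LW k r A p F F' E a a' b)
    (RH : ∀ s : ℂ, 1 / 2 < s.re → E s ≠ 0) {s : ℂ} (hs : 1 / 2 < s.re) (h1 : s ≠ p) : F s ≠ 0 := by
  intro h0
  have h2 := H.hE s h1
  rw [h0, mul_zero] at h2
  exact RH s hs h2

lemma lq_of {k r : ℕ} {A p : ℝ} {F F' E : ℂ → ℂ} {a a' b : ℕ → ℂ} (H : LW k r A p F F' E a a' b)
    (RH : ∀ s : ℂ, 1 / 2 < s.re → E s ≠ 0) : LQ k A F a := by
  refine { H.good with rh := fun s hs h1 => F_ne H RH hs ?_, ci := (H.ci RH).1 }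
  intro h
  rw [h, Complex.ofReal_im] at h1
  norm_num at h1

lemma lq_of' {k r : ℕ} {A p : ℝ} {F F' E : ℂ → ℂ} {a a' b : ℕ → ℂ} (H : LW k r A p F F' E a a' b)
    (RH : ∀ s : ℂ, 1 / 2 < s.re → E s ≠ 0) : LQ k A F' a' := by
  refine { H.good' with rh := fun s hs h1 => ?_, ci := (H.ci RH).2 }
  rw [H.hconj]
  have h2 : F ((starRingEnd ℂ) s) ≠ 0 := by
    refine F_ne H RH (by rw [Complex.conj_re]; exact hs) ?_
    intro h
    have h3 := congrArg Complex.im h
    rw [Complex.conj_im, Complex.ofReal_im] at h3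
    linarith
  simpa using h2

/-- polynomial growth of the reciprocal -/
theorem grq {k r : ℕ} {A p : ℝ} {F F' E : ℂ → ℂ} {a a' b : ℕ → ℂ} (h : LW k r A p F F' E a a' b)
    (hnz : ∀ s : ℂ, 1 / 2 < s.re → E s ≠ 0) (δ : ℝ) (hδ : 0 < δ) (hδ4 : δ ≤ 1 / 4) :
    ∃ C : ℝ, 0 < C ∧ ∀ s : ℂ, 1 / 2 + δ ≤ s.re → ‖fip r p E s‖ ≤ C * (1 + |s.im|) ^ (1 / 2 : ℝ) := by
  have hLR := lq_of h hnz
  have hLR' := lq_of' h hnz
  have hp1 := h.hp1
  obtain ⟨C1, R1, hC1, hR1, h1⟩ := upq hLR hδ (by linarith)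
  obtain ⟨C2, R2, hC2, hR2, h2⟩ := upq hLR' hδ (by linarith)
  set R := max R1 R2 with hR
  obtain ⟨C3, hC3, h3⟩ := lowq r h.hp0 h.hp1 h.ent hnz R
  set B0 : ℝ := ∑' n : ℕ, ‖LSeries.term b ((3 / 2 : ℝ) : ℂ) n‖ with hB0
  have hsum : Summable fun n : ℕ => ‖LSeries.term b ((3 / 2 : ℝ) : ℂ) n‖ :=
    (h.sb ((3 / 2 : ℝ) : ℂ) (by norm_num)).norm
  have hB0' : 0 ≤ B0 := tsum_nonneg fun _ => norm_nonneg _
  have hδ1 : 0 ≤ Real.log (1 / δ) := Real.log_nonneg (by
    rw [le_div_iff₀ hδ]; linarith)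
  refine ⟨B0 + C1 + C2 + Real.exp (C3 * (1 + Real.log (1 / δ))), by positivity, ?_⟩
  intro s hs
  have hone : (1 : ℝ) ≤ (1 + |s.im|) ^ (1 / 2 : ℝ) :=
    Real.one_le_rpow (by linarith [abs_nonneg s.im]) (by norm_num)
  have hexp : 0 < Real.exp (C3 * (1 + Real.log (1 / δ))) := Real.exp_pos _
  by_cases hs2 : 3 / 2 ≤ s.re
  · have hs1 : s ≠ p := by
      rintro rfl
      rw [Complex.ofReal_re] at hs2
      linarith
    have hb := h.hb s (by linarith)
    have e1 : fip r p E s = LSeries b s := by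
      rw [fip_eq h hs1]
      exact inv_eq_of_mul_eq_one_right hb
    have e2 : ‖LSeries b s‖ ≤ B0 := by
      unfold LSeries
      have hle : ∀ n, ‖LSeries.term b s n‖ ≤ ‖LSeries.term b ((3 / 2 : ℝ) : ℂ) n‖ := fun n =>
        LSeries.norm_term_le_of_re_le_re b (by simpa using hs2) n
      have hsum' : Summable fun n : ℕ => ‖LSeries.term b s n‖ :=
        Summable.of_nonneg_of_le (fun _ => norm_nonneg _) hle hsum
      exact (norm_tsum_le_tsum_norm hsum').trans (hsum'.tsum_le_tsum hle hsum)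
    rw [e1]
    nlinarith [e2, hone, hB0', hC1, hC2, hexp]
  · push Not at hs2
    have hs' : s = 1 / 2 + ((s.re - 1 / 2 : ℝ) : ℂ) + (s.im : ℂ) * I := by
      apply Complex.ext <;> simp
    set δ' : ℝ := s.re - 1 / 2 with hδ'
    have hd1 : δ ≤ δ' := by linarith
    have hd2 : δ' ≤ 1 := by linarith
    have hd0 : 0 < δ' := by linarith
    rcases lt_or_ge (|s.im|) R with hR' | hR'
    · have e1 := h3 s.im δ' hR'.le hd0 hd2
      rw [← hs'] at e1
      have e2 : Real.exp (C3 * (1 + Real.log (1 / δ'))) ≤ Real.exp (C3 * (1 + Real.log (1 / δ))) := by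
        apply Real.exp_le_exp.2
        have : Real.log (1 / δ') ≤ Real.log (1 / δ) :=
          Real.log_le_log (by positivity) (one_div_le_one_div_of_le hδ hd1)
        gcongr
      nlinarith [e1, e2, hone, hB0', hC1, hC2, hexp]
    · have hRpos : 1 ≤ R := hR1.trans (le_max_left _ _)
      have him : s.im ≠ 0 := by
        intro h0
        rw [h0] at hR'
        simp at hR'
        linarith
      have hs1 : s ≠ p := by
        rintro rfl
        simp at him
      rw [fip_eq h hs1, norm_inv]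
      rcases le_total 0 s.im with hpos | hneg
      · rw [abs_of_nonneg hpos] at hR'
        have e1 := h1 s.im δ' ((le_max_left _ _).trans hR') hd1 hd2
        rw [← hs'] at e1
        nlinarith [e1, hone, hB0', hC1, hC2, hexp]
      · rw [abs_of_nonpos hneg] at hR'
        have e1 := h2 (-s.im) δ' ((le_max_right _ _).trans hR') hd1 hd2
        have e2 : (1 / 2 + (δ' : ℂ) + ((-s.im : ℝ) : ℂ) * I) = (starRingEnd ℂ) s := by
          apply Complex.ext <;> simp [hδ']
        rw [e2, h.hconj, Complex.conj_conj, Complex.norm_conj, abs_neg] at e1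
        nlinarith [e1, hone, hB0', hC1, hC2, hexp]

end

section

open Complex
open Pool.Agent.N669.GX (Z abs_lt summable_a tsum_a rec_bound Z_pow_le)
open scoped ArithmeticFunction.vonMangoldt ArithmeticFunction.zeta

/-- the recursion for the coefficients of the reciprocal -/
theorem rec_bq {k r : ℕ} {A p : ℝ} {F F' E : ℂ → ℂ} {a a' b : ℕ → ℂ}
    (h : LW k r A p F F' E a a' b) : ∀ n : ℕ, n ≠ 0 → ((Real.log n : ℝ) : ℂ) * b n =
      - ∑ p ∈ n.divisorsAntidiagonal, a p.1 * b p.2 := by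
  have ha0 : a 0 = 0 := h.good.ha1 0 (by norm_num)
  have key : ∀ s : ℂ, 1 < s.re → 1 ≤ s.im →
      LSeries (LSeries.logMul b + LSeries.convolution a b) s = 0 := by
    intro s hs1 hs2
    have hab := abs_lt b h.sb hs1
    have hB : HasDerivAt (LSeries b) (-LSeries (LSeries.logMul b) s) s := LSeries_hasDerivAt hab
    have hF : HasDerivAt F (deriv F s) s :=
      (h.good.an s (by linarith)).differentiableAt.hasDerivAt
    have hprod := hF.mul hB
    have hone : (F * LSeries b) =ᶠ[nhds s] fun _ => (1 : ℂ) := by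
      have hopen : IsOpen {z : ℂ | 1 < z.re} := isOpen_lt continuous_const Complex.continuous_re
      filter_upwards [hopen.mem_nhds hs1] with z hz
      exact h.hb z hz
    have hd : deriv F s * LSeries b s + F s * -LSeries (LSeries.logMul b) s = 0 := by
      have h1 : HasDerivAt (fun _ : ℂ => (1 : ℂ))
          (deriv F s * LSeries b s + F s * -LSeries (LSeries.logMul b) s) s :=
        hprod.congr_of_eventuallyEq hone.symm
      exact h1.unique (hasDerivAt_const s 1)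
    have hF0 : F s ≠ 0 := by
      intro h0
      have := h.hb s hs1
      rw [h0, zero_mul] at this
      exact zero_ne_one this
    have hld := h.good.ld s hs1 hs2
    rw [tsum_a a ha0] at hld
    have hld' : deriv F s = - LSeries a s * F s := by
      rw [← hld]; field_simp
    have hsa := summable_a k a h.good.ram hs1
    have hsb := h.sb s hs1
    have hconv : LSeries (LSeries.convolution a b) s = LSeries a s * LSeries b s := LSeries_convolution' hsa hsb
    rw [LSeries_add (LSeriesSummable_logMul_of_lt_re hab) (hsa.convolution hsb), hconv]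
    rw [hld'] at hd
    have h2 : F s * (LSeries (LSeries.logMul b) s + LSeries a s * LSeries b s) = 0 := by
      linear_combination -hd
    exact (mul_eq_zero.1 h2).resolve_left hF0
  set c : ℕ → ℂ := LSeries.logMul b + LSeries.convolution a b with hc
  set c' : ℕ → ℂ := fun n => c n / (n : ℂ) ^ (2 * I) with hc'
  have hterm : ∀ (x : ℝ) (n : ℕ), LSeries.term c' x n = LSeries.term c (x + 2 * I) n := by
    intro x n
    rcases eq_or_ne n 0 with rfl | hn
    · simp
    · rw [LSeries.term_of_ne_zero hn, LSeries.term_of_ne_zero hn,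
        Complex.cpow_add _ _ (Nat.cast_ne_zero.2 hn), hc']
      simp only
      rw [div_div, mul_comm]
  have hL : ∀ x : ℝ, LSeries c' x = LSeries c (x + 2 * I) := by
    intro x
    unfold LSeries
    exact tsum_congr (hterm x)
  have hev : (fun x : ℝ => LSeries c' x) =ᶠ[Filter.atTop] 0 := by
    filter_upwards [Filter.eventually_gt_atTop 1] with x hx
    rw [hL x]
    exact key _ (by simpa using hx) (by simp)
  rcases LSeries_eventually_eq_zero_iff'.1 hev with h0 | h0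
  · intro n hn
    have h1 := h0 n hn
    have h2 : c n = 0 := by
      rw [hc'] at h1
      simp only [div_eq_zero_iff] at h1
      rcases h1 with h1 | h1
      · exact h1
      · exfalso
        rw [Complex.cpow_eq_zero_iff] at h1
        exact hn (by exact_mod_cast h1.1)
    rw [hc] at h2
    simp only [Pi.add_apply, LSeries.logMul, LSeries.convolution_def] at h2
    rw [← Complex.natCast_log] at *
    linear_combination h2
  · exfalso
    have hs : LSeriesSummable c' ((2 : ℝ) : ℂ) := by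
      unfold LSeriesSummable
      have h1 : (LSeries.term c' ((2 : ℝ) : ℂ)) = LSeries.term c ((2 : ℝ) + 2 * I) :=
        funext (hterm 2)
      rw [h1]
      have h2 : 1 < (((2 : ℝ) : ℂ) + 2 * I).re := by simp
      exact (LSeriesSummable_logMul_of_lt_re (abs_lt b h.sb h2)).add
        ((summable_a k a h.good.ram h2).convolution (h.sb _ h2))
    have := hs.abscissaOfAbsConv_le
    rw [h0] at this
    exact absurd this (by simp)

/-- (GX/J) the coefficients of the reciprocal -/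
theorem bbq {k r : ℕ} {A p : ℝ} {F F' E : ℂ → ℂ} {a a' b : ℕ → ℂ} (h : LW k r A p F F' E a a' b) :
    ∃ C : ℝ, 0 < C ∧ ∀ n : ℕ, 1 ≤ n → ‖b n‖ ≤ C * (n : ℝ) ^ (1 / 4 : ℝ) := by
  have hk : (0 : ℝ) < k := by exact_mod_cast h.good.hk
  obtain ⟨C, hC1, hC⟩ := @Pool.Agent.H373R2.T4.DivB.div_bound (1 / (4 * k)) (by positivity)
  refine ⟨(‖b 1‖ + 1) * C ^ k, by positivity, fun n hn => ?_⟩
  have h1 := rec_bound k a b h.good.ram (rec_bq h) n hn
  have h2 := Z_pow_le k n
  have h3 := hC n (by omega)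
  have hn0 : (0 : ℝ) < n := by exact_mod_cast hn
  calc ‖b n‖ ≤ ‖b 1‖ * (Z ^ k) n := h1
    _ ≤ ‖b 1‖ * (n.divisors.card : ℝ) ^ k := by gcongr
    _ ≤ ‖b 1‖ * (C * (n : ℝ) ^ (1 / (4 * k) : ℝ)) ^ k := by gcongr
    _ = ‖b 1‖ * (C ^ k * (n : ℝ) ^ (1 / 4 : ℝ)) := by
        rw [mul_pow, ← Real.rpow_natCast ((n : ℝ) ^ (1 / (4 * k) : ℝ)) k, ← Real.rpow_mul hn0.le]
        congr 3
        field_simp
    _ ≤ (‖b 1‖ + 1) * (C ^ k * (n : ℝ) ^ (1 / 4 : ℝ)) := by
        have : 0 ≤ C ^ k * (n : ℝ) ^ (1 / 4 : ℝ) := by positivity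
        nlinarith
    _ = (‖b 1‖ + 1) * C ^ k * (n : ℝ) ^ (1 / 4 : ℝ) := by ring

end

section

open Complex MeasureTheory Filter
open Pool.Agent.N964
open Pool.Agent.N964.GX (Xk Qk Dat pt_one log_small)
open Pool.Agent.N964.MX (wt)
open Pool.Agent.Y23 (Lg)

lemma fip_norm {k r : ℕ} {A p : ℝ} {F F' E : ℂ → ℂ} {a a' b : ℕ → ℂ} (H : LW k r A p F F' E a a' b)
    {δ t : ℝ} (ht : t ≠ 0) : ‖fip r p E (1 / 2 + δ + t * I)‖ = ‖F (1 / 2 + δ + t * I)‖⁻¹ := by
  rw [fip_eq H, norm_inv]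
  intro h
  have h3 := congrArg Complex.im h
  simp at h3
  exact ht h3

lemma fip_norm' {k r : ℕ} {A p : ℝ} {F F' E : ℂ → ℂ} {a a' b : ℕ → ℂ} (H : LW k r A p F F' E a a' b)
    {δ t : ℝ} (ht : t ≠ 0) : ‖fip r p E (1 / 2 + δ + ((-t : ℝ) : ℂ) * I)‖ = ‖F' (1 / 2 + δ + t * I)‖⁻¹ := by
  rw [fip_norm H (neg_ne_zero.2 ht), H.hconj, RCLike.norm_conj]
  congr 3
  simp only [map_add, map_mul, Complex.conj_ofReal, Complex.conj_I, map_div₀, map_one, map_ofNat]
  push_cast
  ring

lemma fip_cont {r : ℕ} {p : ℝ} {E : ℂ → ℂ} (hE : Differentiable ℂ E) (RH : ∀ s : ℂ, 1 / 2 < s.re → E s ≠ 0) {δ : ℝ} (hδ : 0 < δ) :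
    Continuous (fun t : ℝ => fip r p E (1 / 2 + δ + t * I)) := by
  unfold fip
  refine Continuous.div (by fun_prop) (hE.continuous.comp (by fun_prop)) fun t => RH _ (by simp; linarith)

lemma fip_diff {r : ℕ} {p : ℝ} {E : ℂ → ℂ} (hE : Differentiable ℂ E) (RH : ∀ s : ℂ, 1 / 2 < s.re → E s ≠ 0) :
    DifferentiableOn ℂ (fip r p E) {s : ℂ | 1 / 2 < s.re} := by
  unfold fip
  refine DifferentiableOn.div ?_ hE.differentiableOn fun s hs => RH s hs
  exact (by fun_prop : Differentiable ℂ fun s : ℂ => (s - p) ^ r).differentiableOn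

theorem dirq {k r : ℕ} {A p : ℝ} {F F' E : ℂ → ℂ} {a a' b : ℕ → ℂ} (H : LW k r A p F F' E a a' b)
    (RH : ∀ s : ℂ, 1 / 2 < s.re → E s ≠ 0) :
    ∃ C : ℝ, 0 < C ∧ ∀ x : ℝ, 3 ≤ x → ‖∑ n ∈ Finset.Icc 1 ⌊x⌋₊, b n‖ ≤ Real.sqrt x * Real.exp (C * Qk k x) := by
  have R1 := lq_of H RH
  have R2 := lq_of' H RH
  have hkk := H.good.hk
  have hk1 : (1 : ℝ) ≤ k := by exact_mod_cast hkk
  have hp1 := H.hp1
  obtain ⟨B, hB, hb⟩ := bbq H
  obtain ⟨Cp, hCp, hp⟩ := Pool.Agent.N521.GXF.per b (fip r p E) B hB hb (fip_diff H.ent RH) (by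
    intro s hs
    have hs1 : s ≠ p := by
      rintro rfl
      rw [Complex.ofReal_re] at hs
      linarith
    rw [fip_eq H hs1]
    exact inv_eq_of_mul_eq_one_right (H.hb s (by linarith))) (grq H RH)
  obtain ⟨C1, d1, hC1, hd1, hd14, m1⟩ := mean_q R1
  obtain ⟨C2, d2, hC2, hd2, hd24, m2⟩ := mean_q R2
  obtain ⟨d3, hd3, hd34, t1⟩ := tailq R1
  obtain ⟨d4, hd4, hd44, t2⟩ := tailq R2
  obtain ⟨CD, D⟩ := dat_q Pool.Agent.N99.MXD.coef Pool.Agent.N607.GXB.momc R1
  obtain ⟨CD', D'⟩ := dat_q Pool.Agent.N99.MXD.coef Pool.Agent.N607.GXB.momc R2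
  have hCD := D.pos
  have hCD' := D'.pos
  have he8 := Real.exp_pos 8
  set R := CD + CD' + Real.exp 8 with hR
  obtain ⟨C4, hC4, hlow⟩ := lowq r H.hp0 H.hp1 H.ent RH R
  obtain ⟨K1, hK1⟩ := log_small (1 / (4 * k)) (by positivity)
  set K := |K1| + Cp + C1 + C2 + 2 * B + R + C4 + 2 * ((3 + 6 * k) * (CD + CD')) with hK
  have hcd0 : 0 < (3 + 6 * (k : ℝ)) * (CD + CD') := by positivity
  have hK1' := abs_nonneg K1
  have hK1'' := le_abs_self K1
  have hlogK := hK1 K (by linarith)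
  have hLgK : 2 * k * Real.log (3 + K) + (3 + 6 * k) * (CD + CD') ≤ K := by
    have h9 : 2 * k * Real.log (3 + K) ≤ K / 2 := by
      calc 2 * k * Real.log (3 + K) ≤ 2 * k * (1 / (4 * k) * K) := by gcongr
        _ = K / 2 := by field_simp; norm_num
    linarith
  have hcont : ∀ δ : ℝ, 0 < δ → Continuous (fun t : ℝ => ‖fip r p E (1 / 2 + δ + t * I)‖) := fun δ hδ =>
    (fip_cont H.ent RH hδ).norm
  refine Pool.Agent.N157.GXK.fin k (fun y => ‖∑ n ∈ Finset.Icc 1 ⌊y⌋₊, b n‖) K (min (min d1 d2) (min d3 d4)) hkk (by linarith)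
    (lt_min (lt_min hd1 hd2) (lt_min hd3 hd4)) ((min_le_left _ _).trans ((min_le_left _ _).trans hd14))
    (fun δ t => ‖fip r p E (1 / 2 + δ + t * I)‖) (fun δ t => norm_nonneg _) (fun δ hδ _ => hcont δ hδ) ?_ ?_ ?_ ?_ ?_
  · -- Perron
    intro δ y hδ hδ4 hy
    obtain ⟨i1, i2⟩ := hp δ y hδ hδ4 hy
    refine ⟨i1, i2.trans ?_⟩
    have hI : 0 ≤ ∫ t : ℝ, ‖fip r p E (1 / 2 + δ + t * I)‖ * wt y t :=
      integral_nonneg fun t => mul_nonneg (norm_nonneg _) (MX.wt_nonneg (by linarith) t)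
    have hKp : Cp ≤ K := by linarith
    gcongr
  · -- trivial
    intro y hy
    have hy0 : 0 < y := by linarith
    refine (norm_sum_le _ _).trans ?_
    have i1 : ∀ n ∈ Finset.Icc 1 ⌊y⌋₊, ‖b n‖ ≤ B * y := by
      intro n hn
      rw [Finset.mem_Icc] at hn
      have hn1 : (1 : ℝ) ≤ n := by exact_mod_cast hn.1
      have hny : (n : ℝ) ≤ y := (Nat.le_floor_iff hy0.le).1 hn.2
      refine (hb n hn.1).trans (mul_le_mul_of_nonneg_left ?_ hB.le)
      calc (n : ℝ) ^ (1 / 4 : ℝ) ≤ (n : ℝ) ^ (1 : ℝ) := Real.rpow_le_rpow_of_exponent_le hn1 (by norm_num)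
        _ = n := Real.rpow_one _
        _ ≤ y := hny
    refine (Finset.sum_le_sum i1).trans ?_
    rw [Finset.sum_const, Nat.card_Icc, nsmul_eq_mul, Nat.add_sub_cancel]
    have h9 : ((⌊y⌋₊ : ℕ) : ℝ) ≤ y := Nat.floor_le hy0.le
    calc ((⌊y⌋₊ : ℕ) : ℝ) * (B * y) ≤ y * (B * y) := by gcongr
      _ = B * y ^ 2 := by ring
      _ ≤ K * y ^ 2 := by
        refine mul_le_mul_of_nonneg_right ?_ (by positivity)
        linarith
  · -- small heights
    intro δ t hδ hδd ht
    have hδ4 : δ ≤ 1 / 4 := hδd.trans ((min_le_left _ _).trans ((min_le_left _ _).trans hd14))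
    have hℓ := MX.ell_ge hδ hδ4
    have fin : ∀ G c, Dat k c G a ∨ Dat k c G a' → c ≤ CD + CD' → ∀ u : ℝ, R ≤ u → u ≤ K → ‖G (1 / 2 + δ + u * I)‖⁻¹ ≤
        Real.exp (K * (1 + Real.log (1 / δ))) := by
      intro G c hG hcle u hu1 hu2
      have hc3 : 3 ≤ c := by rcases hG with hG | hG <;> exact hG.pos
      have hp1 : ‖G (1 / 2 + δ + u * I)‖⁻¹ ≤ Real.exp ((2 * k * Lg u + (3 + 6 * k) * c) * Real.log (1 / δ)) := by
        rcases hG with hG | hG <;> exact pt_one hG hδ hδ4 (by linarith) (by linarith)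
      refine hp1.trans (Real.exp_le_exp.2 ?_)
      have hLg : Lg u ≤ Real.log (3 + K) := by
        unfold Pool.Agent.Y23.Lg
        rw [abs_of_nonneg (by linarith)]
        exact Real.log_le_log (by linarith) (by linarith)
      have h9 : 2 * k * Lg u + (3 + 6 * k) * c ≤ K := by
        refine le_trans ?_ hLgK
        gcongr
      have h10 : (2 * k * Lg u + (3 + 6 * k) * c) * Real.log (1 / δ) ≤ K * Real.log (1 / δ) := by gcongr
      linarith
    rcases le_or_gt |t| R with h | h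
    · refine (hlow t δ h hδ (by linarith)).trans (Real.exp_le_exp.2 ?_)
      have : C4 ≤ K := by linarith
      gcongr
    · rcases le_or_gt 0 t with h0 | h0
      · rw [abs_of_nonneg h0] at h ht
        rw [fip_norm H (by linarith : 0 < t).ne']
        exact fin F CD (Or.inl D) (by linarith) t h.le ht
      · rw [abs_of_neg h0] at h ht
        have e := fip_norm' H (δ := δ) (t := -t) (by linarith : 0 < -t).ne'
        rw [neg_neg] at e
        rw [e]
        exact fin F' CD' (Or.inr D') (by linarith) (-t) h.le ht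
  · -- means
    intro δ T hδ hδd hT hLT
    have hδ1 : δ ≤ d1 := hδd.trans ((min_le_left _ _).trans (min_le_left _ _))
    have hδ2 : δ ≤ d2 := hδd.trans ((min_le_left _ _).trans (min_le_right _ _))
    have hX : 0 ≤ Xk k δ := by
      unfold Xk
      have := Real.log_nonneg (x := 1 / δ) (by rw [le_div_iff₀ hδ]; linarith)
      positivity
    have gen : ∀ (G : ℂ → ℂ) (C : ℝ) (g : ℝ → ℝ), 3 ≤ C → C ≤ K → Continuous g → (∀ t, 0 ≤ g t) → (∀ t : ℝ, 0 < t → g t = ‖G (1 / 2 + δ + t * I)‖⁻¹) →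
        (∫ t in C..T, ‖G (1 / 2 + δ + t * I)‖⁻¹ ≤ T * Real.exp (C * Xk k δ)) → ∫ t in K..T, g t ≤ T * Real.exp (K * Xk k δ) := by
      intro G C g hC3 hCK hgc hg0 hg hI
      have e1 : ∫ t in C..T, ‖G (1 / 2 + δ + t * I)‖⁻¹ = ∫ t in C..T, g t := by
        refine intervalIntegral.integral_congr fun t ht => ?_
        rw [Set.uIcc_of_le (by linarith)] at ht
        exact (hg t (by linarith [ht.1])).symm
      rw [e1] at hI
      have s2 : ∫ t in C..T, g t = (∫ t in C..K, g t) + (∫ t in K..T, g t) := by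
        rw [intervalIntegral.integral_add_adjacent_intervals (hgc.intervalIntegrable _ _) (hgc.intervalIntegrable _ _)]
      have s1 : 0 ≤ ∫ t in C..K, g t := intervalIntegral.integral_nonneg hCK fun t _ => hg0 t
      have s3 : T * Real.exp (C * Xk k δ) ≤ T * Real.exp (K * Xk k δ) := by
        refine mul_le_mul_of_nonneg_left (Real.exp_le_exp.2 ?_) (by linarith)
        gcongr
      linarith
    constructor
    · exact gen F C1 (fun t => ‖fip r p E (1 / 2 + δ + t * I)‖) hC1 (by linarith) (hcont δ hδ) (fun t => norm_nonneg _)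
        (fun t ht => fip_norm H ht.ne') (m1 T δ (by linarith) hδ hδ1 hLT)
    · have e2 : ∫ t in (-T)..(-K), ‖fip r p E (1 / 2 + δ + t * I)‖ = ∫ t in K..T, ‖fip r p E (1 / 2 + δ + ((-t : ℝ) : ℂ) * I)‖ := by
        rw [intervalIntegral.integral_comp_neg (fun t : ℝ => ‖fip r p E (1 / 2 + δ + t * I)‖)]
      rw [e2]
      exact gen F' C2 (fun t => ‖fip r p E (1 / 2 + δ + ((-t : ℝ) : ℂ) * I)‖) hC2 (by linarith) ((hcont δ hδ).comp continuous_neg)
        (fun t => norm_nonneg _) (fun t ht => fip_norm' H ht.ne') (m2 T δ (by linarith) hδ hδ2 hLT)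
  · -- tail
    intro δ t hδ hδd ht hLt
    have hδ3 : δ ≤ d3 := hδd.trans ((min_le_right _ _).trans (min_le_left _ _))
    have hδ4 : δ ≤ d4 := hδd.trans ((min_le_right _ _).trans (min_le_right _ _))
    rcases le_or_gt 0 t with h0 | h0
    · rw [abs_of_nonneg h0] at ht ⊢
      rw [fip_norm H (by linarith : 0 < t).ne']
      exact t1 δ t hδ hδ3 ht hLt
    · have e := fip_norm' H (δ := δ) (t := -t) (by linarith : 0 < -t).ne'
      rw [neg_neg] at e
      rw [e]
      rw [abs_of_neg h0] at ht ⊢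
      refine t2 δ (-t) hδ hδ4 ht ?_
      have : Lg (-t) = Lg t := by unfold Pool.Agent.Y23.Lg; rw [abs_neg]
      rw [this]
      exact hLt

end

section

open Complex MeasureTheory Filter Topology Asymptotics Set
open Pool.Agent.N964.GX (Qk)
open Pool.Agent.N702.GX (cut HH mellin_cut diff_HH eventually_Q bigO)

/-- the converse -/
theorem cvq {k r : ℕ} {A p : ℝ} {F F' E : ℂ → ℂ} {a a' b : ℕ → ℂ} (hL : LW k r A p F F' E a a' b)
    (h : ∃ C : ℝ, ∀ x : ℝ, 3 ≤ x → ‖∑ n ∈ Finset.Icc 1 ⌊x⌋₊, b n‖ ≤ Real.sqrt x * Real.exp (C * Qk k x))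
    (s : ℂ) (hs : 1 / 2 < s.re) : E s ≠ 0 := by
  obtain ⟨C, hC⟩ := h
  have hk := hL.good.hk
  have hp1 := hL.hp1
  by_cases hs1 : s = p ∧ r ≠ 0
  · rw [hs1.1]
    exact hL.h1.resolve_left hs1.2
  set e : ℝ := (s.re - 1 / 2) / 2 with he
  have he0 : 0 < e := by rw [he]; linarith
  have hO := bigO k hk b C e he0 hC
  set U : Set ℂ := {z : ℂ | 1 / 2 + e < z.re} with hU
  have hUo : IsOpen U := isOpen_lt continuous_const continuous_re
  have hUc : IsPreconnected U := (convex_halfSpace_re_gt _).isPreconnected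
  have hsU : s ∈ U := by
    rw [hU, mem_ofPred_eq, he]
    linarith
  have hH : DifferentiableOn ℂ (HH b) U := fun z hz => (diff_HH b _ hO z hz).differentiableWithinAt
  have hid : EqOn (fun z => E z * HH b z) (fun z => (z - p) ^ r) U := by
    refine AnalyticOnNhd.eqOn_of_preconnected_of_eventuallyEq
      (DifferentiableOn.analyticOnNhd (hL.ent.differentiableOn.mul hH) hUo)
      (DifferentiableOn.analyticOnNhd (by fun_prop) hUo) hUc
      (z₀ := ((2 + e : ℝ) : ℂ)) ?_ ?_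
    · rw [hU, mem_ofPred_eq, ofReal_re]
      linarith
    · have hopen : {z : ℂ | 1 + e < z.re} ∈ 𝓝 (((2 + e : ℝ) : ℂ)) := by
        refine (isOpen_lt continuous_const continuous_re).mem_nhds ?_
        rw [mem_ofPred_eq, ofReal_re]
        linarith
      filter_upwards [hopen] with z hz
      have hz1 : 1 < z.re := by
        have : 1 + e < z.re := hz
        linarith
      have hzne : z ≠ p := by
        rintro rfl
        rw [Complex.ofReal_re] at hz1
        linarith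
      have hser : LSeries b z = HH b z := by
        unfold HH
        rw [mellin_cut]
        refine LSeries_eq_mul_integral b (r := 1 / 2 + e) (by linarith) ?_ (hL.sb z hz1) ?_
        · have : 1 + e < z.re := hz
          linarith
        · have h2 := hO.comp_tendsto tendsto_natCast_atTop_atTop
          refine IsBigO.congr' h2 ?_ ?_
          · refine Eventually.of_forall fun n => ?_
            simp
          · refine Eventually.of_forall fun n => ?_
            simp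
      rw [← hser, hL.hE z hzne, mul_assoc, hL.hb z hz1, mul_one]
  have h1 := hid hsU
  simp only at h1
  intro hE0
  rw [hE0, zero_mul] at h1
  have h2 : s - p ≠ 0 ∨ r = 0 := by
    by_cases hr : r = 0
    · exact Or.inr hr
    · left
      intro h
      exact hs1 ⟨sub_eq_zero.1 h, hr⟩
  rcases h2 with h2 | h2
  · exact pow_ne_zero r h2 h1.symm
  · rw [h2, pow_zero] at h1
    exact zero_ne_one h1

end

/-- **The engine for shifted functions.** -/
theorem engineq {k r : ℕ} {A p : ℝ} {F F' E : ℂ → ℂ} {a a' b : ℕ → ℂ} (H : LW k r A p F F' E a a' b) :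
    (∀ s : ℂ, 1 / 2 < s.re → E s ≠ 0) ↔
      ∃ C : ℝ, ∀ x : ℝ, 3 ≤ x → ‖∑ n ∈ Finset.Icc 1 ⌊x⌋₊, b n‖ ≤
        Real.sqrt x * Real.exp (C * Pool.Agent.N964.GX.Qk k x) := by
  constructor
  · intro RH
    obtain ⟨C, _, hC⟩ := dirq H RH
    exact ⟨C, hC⟩
  · exact cvq H

end Pool.Agent.N964.GW
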