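import Mathlib
import Pool.Agent.N964.GW.LW
import Pool.Agent.N964.GW.A3
import Pool.Agent.N776.GXPS

set_option autoImplicit false

/-!
# Project GW: the shift and partial summation
-/

namespace Pool.Agent.N964.GW

open Complex MeasureTheory
open Pool.Agent.N964.MX (kk)
open Pool.Agent.N964.GX (PSa Qk LL)
open Pool.Agent.Y23 (Lg)

/-! ### Partial summation -/

lemma rpow_le {κ : ℝ} (h1 : κ ≤ 1 / 2) {n : ℕ} (hn : 1 ≤ n) :
    ((n : ℝ) ^ (-κ) - ((n + 1 : ℕ) : ℝ) ^ (-κ)) * (n : ℝ) ^ (1 / 2 + κ) ≤ Real.sqrt ((n + 1 : ℕ) : ℝ) - Real.sqrt n := by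
  have hn0 : (0 : ℝ) < n := by exact_mod_cast hn
  have hm0 : (0 : ℝ) < ((n + 1 : ℕ) : ℝ) := by positivity
  have e1 : (n : ℝ) ^ (-κ) * (n : ℝ) ^ (1 / 2 + κ) = Real.sqrt n := by
    rw [← Real.rpow_add hn0, Real.sqrt_eq_rpow]
    congr 1
    ring
  have e2 : ((n + 1 : ℕ) : ℝ) ^ (-κ) * (n : ℝ) ^ (1 / 2 + κ) =
      Real.sqrt n * ((n : ℝ) / ((n + 1 : ℕ) : ℝ)) ^ κ := by
    rw [Real.div_rpow hn0.le hm0.le, Real.rpow_neg hm0.le, Real.rpow_add hn0, Real.sqrt_eq_rpow]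
    field_simp
  have e3 : ((n : ℝ) / ((n + 1 : ℕ) : ℝ)) ^ (1 / 2 : ℝ) ≤ ((n : ℝ) / ((n + 1 : ℕ) : ℝ)) ^ κ := by
    refine Real.rpow_le_rpow_of_exponent_ge (by positivity) ?_ h1
    rw [div_le_one hm0]
    push_cast
    linarith
  rw [← Real.sqrt_eq_rpow, Real.sqrt_div hn0.le] at e3
  rw [sub_mul, e1, e2]
  obtain ⟨x, hx⟩ : ∃ x : ℝ, x = Real.sqrt n := ⟨_, rfl⟩
  obtain ⟨y, hy⟩ : ∃ y : ℝ, y = Real.sqrt ((n + 1 : ℕ) : ℝ) := ⟨_, rfl⟩
  rw [← hx, ← hy] at e3 ⊢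
  have hx0 : 0 < x := by rw [hx]; exact Real.sqrt_pos.2 hn0
  have hy0 : 0 < y := by rw [hy]; exact Real.sqrt_pos.2 hm0
  have h2 : x * (x / y) ≤ x * (((n : ℝ) / ((n + 1 : ℕ) : ℝ)) ^ κ) := mul_le_mul_of_nonneg_left e3 hx0.le
  have h3 : x - x * (x / y) ≤ y - x := by
    have h4 : x * (x / y) = x ^ 2 / y := by ring
    have h5 : 2 * x - y ≤ x ^ 2 / y := by
      rw [le_div_iff₀ hy0]
      nlinarith [sq_nonneg (x - y)]
    rw [h4]
    linarith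
  linarith

lemma sum_le (κ : ℝ) (h0 : 0 ≤ κ) (h1 : κ ≤ 1 / 2) : ∀ N : ℕ, 1 ≤ N →
    ∑ n ∈ Finset.Ico 1 N, |((n + 1 : ℕ) : ℝ) ^ (-κ) - (n : ℝ) ^ (-κ)| * (n : ℝ) ^ (1 / 2 + κ) ≤ Real.sqrt N := by
  intro N hN
  have h2 : ∑ n ∈ Finset.Ico 1 N, |((n + 1 : ℕ) : ℝ) ^ (-κ) - (n : ℝ) ^ (-κ)| * (n : ℝ) ^ (1 / 2 + κ) ≤
      ∑ n ∈ Finset.Ico 1 N, (Real.sqrt ((n + 1 : ℕ) : ℝ) - Real.sqrt (n : ℝ)) := by
    refine Finset.sum_le_sum fun n hn => ?_
    rw [Finset.mem_Ico] at hn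
    have hn0 : (0 : ℝ) < n := by exact_mod_cast hn.1
    have h3 : ((n + 1 : ℕ) : ℝ) ^ (-κ) ≤ (n : ℝ) ^ (-κ) := by
      refine Real.rpow_le_rpow_of_nonpos hn0 ?_ (by linarith)
      push_cast
      linarith
    rw [abs_sub_comm, abs_of_nonneg (by linarith)]
    exact rpow_le h1 hn.1
  refine h2.trans ?_
  rw [Finset.sum_Ico_eq_sum_range]
  have h3 : ∀ m : ℕ, ∑ i ∈ Finset.range m, (Real.sqrt ((1 + i + 1 : ℕ) : ℝ) - Real.sqrt ((1 + i : ℕ) : ℝ)) =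
      Real.sqrt ((1 + m : ℕ) : ℝ) - Real.sqrt ((1 : ℕ) : ℝ) := by
    intro m
    induction m with
    | zero => simp
    | succ m ih =>
      rw [Finset.sum_range_succ, ih]
      have : (1 + m + 1 : ℕ) = 1 + (m + 1) := by ring
      rw [this]
      ring
  rw [h3 (N - 1)]
  have h4 : (1 + (N - 1) : ℕ) = N := by omega
  rw [h4]
  have := Real.sqrt_nonneg ((1 : ℕ) : ℝ)
  linarith

/-- partial summation -/
theorem pst {k : ℕ} (hk : 1 ≤ k) {κ : ℝ} (h0 : 0 ≤ κ) (h1 : κ ≤ 1 / 2) (b : ℕ → ℂ) :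
    (∃ C : ℝ, ∀ x : ℝ, 3 ≤ x →
      ‖∑ n ∈ Finset.Icc 1 ⌊x⌋₊, sh κ b n‖ ≤ Real.sqrt x * Real.exp (C * Qk k x)) ↔
    (∃ C : ℝ, ∀ x : ℝ, 3 ≤ x →
      ‖∑ n ∈ Finset.Icc 1 ⌊x⌋₊, b n‖ ≤ x ^ (1 / 2 + κ) * Real.exp (C * Qk k x)) := by
  have hsh : ∀ n : ℕ, sh κ b n = (((n : ℝ) ^ (-κ) : ℝ) : ℂ) * b n := by
    intro n
    unfold sh
    rw [mul_comm, Complex.ofReal_cpow (Nat.cast_nonneg n)]
    push_cast
    rfl
  constructor
  · intro h
    have key := Pool.Agent.N776.GXPS.gen hk (sh κ b) (fun n => (n : ℝ) ^ κ) Real.sqrt (fun x => x ^ (1 / 2 + κ)) ?_ ?_ ?_ ?_ h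
    · obtain ⟨C, hC⟩ := key
      refine ⟨C, fun x hx => ?_⟩
      have h1 := hC x hx
      have h2 : ∑ n ∈ Finset.Icc 1 ⌊x⌋₊, (((n : ℝ) ^ κ : ℝ) : ℂ) * sh κ b n = ∑ n ∈ Finset.Icc 1 ⌊x⌋₊, b n := by
        refine Finset.sum_congr rfl fun n hn => ?_
        rw [Finset.mem_Icc] at hn
        have hn0 : (0 : ℝ) < n := by exact_mod_cast hn.1
        rw [hsh, ← mul_assoc, ← Complex.ofReal_mul, ← Real.rpow_add hn0, add_neg_cancel, Real.rpow_zero,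
          Complex.ofReal_one, one_mul]
      rwa [h2] at h1
    · intro n hn
      rw [Real.one_le_sqrt]
      exact_mod_cast hn
    · intro x hx
      exact Real.rpow_le_rpow (Nat.cast_nonneg _) (Nat.floor_le (by linarith)) (by linarith)
    · intro x hx
      positivity
    · intro N hN
      have hN0 : (0 : ℝ) < N := by exact_mod_cast hN
      have e1 : |(N : ℝ) ^ κ| * Real.sqrt N = (N : ℝ) ^ (1 / 2 + κ) := by
        rw [abs_of_nonneg (by positivity), Real.sqrt_eq_rpow, ← Real.rpow_add hN0]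
        congr 1
        ring
      have e2 : ∑ n ∈ Finset.Ico 1 N, |((n + 1 : ℕ) : ℝ) ^ κ - (n : ℝ) ^ κ| * Real.sqrt n ≤
          ∑ n ∈ Finset.Ico 1 N, (((n + 1 : ℕ) : ℝ) ^ κ - (n : ℝ) ^ κ) * Real.sqrt N := by
        refine Finset.sum_le_sum fun n hn => ?_
        rw [Finset.mem_Ico] at hn
        have h3 : (n : ℝ) ^ κ ≤ ((n + 1 : ℕ) : ℝ) ^ κ :=
          Real.rpow_le_rpow (Nat.cast_nonneg _) (by push_cast; linarith) h0
        rw [abs_of_nonneg (by linarith)]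
        refine mul_le_mul_of_nonneg_left (Real.sqrt_le_sqrt ?_) (by linarith)
        exact_mod_cast hn.2.le
      have e3 : ∑ n ∈ Finset.Ico 1 N, (((n + 1 : ℕ) : ℝ) ^ κ - (n : ℝ) ^ κ) * Real.sqrt N ≤ (N : ℝ) ^ (1 / 2 + κ) := by
        rw [← Finset.sum_mul, Finset.sum_Ico_eq_sum_range]
        have h3 : ∀ m : ℕ, ∑ i ∈ Finset.range m, (((1 + i + 1 : ℕ) : ℝ) ^ κ - ((1 + i : ℕ) : ℝ) ^ κ) =
            ((1 + m : ℕ) : ℝ) ^ κ - ((1 : ℕ) : ℝ) ^ κ := by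
          intro m
          induction m with
          | zero => simp
          | succ m ih =>
            rw [Finset.sum_range_succ, ih]
            have : (1 + m + 1 : ℕ) = 1 + (m + 1) := by ring
            rw [this]
            ring
        rw [h3 (N - 1)]
        have h4 : (1 + (N - 1) : ℕ) = N := by omega
        rw [h4, ← e1, abs_of_nonneg (by positivity)]
        refine mul_le_mul_of_nonneg_right ?_ (Real.sqrt_nonneg _)
        have : 0 ≤ ((1 : ℕ) : ℝ) ^ κ := by positivity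
        linarith
      have e4 : |(N : ℝ) ^ κ| * Real.sqrt N + ∑ n ∈ Finset.Ico 1 N, |((n + 1 : ℕ) : ℝ) ^ κ - (n : ℝ) ^ κ| * Real.sqrt n ≤
          2 * (N : ℝ) ^ (1 / 2 + κ) := by
        rw [e1]
        linarith
      exact e4
  · intro h
    have key := Pool.Agent.N776.GXPS.gen hk b (fun n => (n : ℝ) ^ (-κ)) (fun x => x ^ (1 / 2 + κ)) Real.sqrt ?_ ?_ ?_ ?_ h
    · obtain ⟨C, hC⟩ := key
      refine ⟨C, fun x hx => ?_⟩
      have h1 := hC x hx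
      simp_rw [hsh]
      exact h1
    · intro n hn
      exact Real.one_le_rpow (by exact_mod_cast hn) (by linarith)
    · intro x hx
      exact Real.sqrt_le_sqrt (Nat.floor_le (by linarith))
    · intro x hx
      exact Real.sqrt_nonneg _
    · intro N hN
      have hN0 : (0 : ℝ) < N := by exact_mod_cast hN
      have e1 : |(N : ℝ) ^ (-κ)| * (N : ℝ) ^ (1 / 2 + κ) = Real.sqrt N := by
        rw [abs_of_nonneg (by positivity), Real.sqrt_eq_rpow, ← Real.rpow_add hN0]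
        congr 1
        ring
      have e2 := sum_le κ h0 h1 N hN
      have e4 : |(N : ℝ) ^ (-κ)| * (N : ℝ) ^ (1 / 2 + κ) + ∑ n ∈ Finset.Ico 1 N,
          |((n + 1 : ℕ) : ℝ) ^ (-κ) - (n : ℝ) ^ (-κ)| * (n : ℝ) ^ (1 / 2 + κ) ≤ 2 * Real.sqrt N := by
        rw [e1]
        linarith
      exact e4

/-! ### The explicit formula for the shifted function -/

theorem ci_of (h1 : S_cq) (h2 : S_ledge) (h3 : S_redge) (h4 : S_shb) {k : ℕ} {A : ℝ} {lc : ℝ → ℝ} {F : ℂ → ℂ} {a : ℕ → ℂ}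
    {κ : ℝ} (h : LG k A lc F a κ) : CI k (fun s => F (s + κ)) (sh κ a) := by
  obtain ⟨C1, hC1, H1⟩ := h1 k A lc F a κ h
  obtain ⟨C2, hC2, H2⟩ := h2 k A lc F a κ h
  obtain ⟨A', hA', hLB⟩ := h4 k A lc F a κ h.hk h.hA h.good h.ram h.hκ0 h.hκ1
  obtain ⟨C3, hC3, H3⟩ := h3 k A' (fun s => F (s + κ)) (sh κ a) κ hLB h.hκ0 h.hκ1
  refine ⟨2 * (C1 + C2 + C3), by linarith, fun t s l ht hs hs1 hl hlt => ?_⟩
  obtain ⟨V1, V2, hV1, hV2, e1⟩ := H1 t s l (by linarith) hs hs1 hl hlt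
  have ht4 : 4 ≤ t := by linarith
  have e2 := H2 t s l V1 V2 ht4 hs hs1 hl hlt hV1 hV2
  have e3 := H3 t s l V1 V2 ht4 hs hs1 hl hlt hV1 hV2
  have hd : ∀ z : ℂ, deriv (fun s => F (s + κ)) z = deriv F (z + κ) := fun z => deriv_comp_add_const _ _ _
  have hv : ∀ v : ℝ, (7 / 4 + (v : ℂ) * I + κ : ℂ) = 7 / 4 + κ + v * I := fun v => by ring
  simp only [hd, hv] at e3
  have ht : (1 / 2 + (s : ℂ) + t * I + κ : ℂ) = 1 / 2 + κ + s + t * I := by ring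
  simp only [hd, ht]
  change _ ≤ (k * Lg t + 2 * (C1 + C2 + C3)) * c0 l s - 2 * PSa (sh κ a) l t (kk l s) + 2 * (C1 + C2 + C3) / (l ^ 2 * s)
  have e5 : 2 * (C1 + C2 + C3) / (l ^ 2 * s) = 2 * (C1 + C2 + C3) * (1 / (l ^ 2 * s)) := by ring
  rw [e5]
  nlinarith

/-! ### The shift -/

lemma LB.mono {k : ℕ} {A A' : ℝ} {F : ℂ → ℂ} {a : ℕ → ℂ} (h : LB k A F a) (hA : A ≤ A') : LB k A' F a := by
  have hA0 := h.hA
  refine { h with hA := by linarith, lower := fun t ht => ?_, ha := h.ha.trans hA }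
  refine le_trans ?_ (h.lower t ht)
  exact inv_anti₀ (by linarith) hA

lemma term_sh (κ : ℝ) (b : ℕ → ℂ) (s : ℂ) (n : ℕ) : LSeries.term (sh κ b) s n = LSeries.term b (s + κ) n := by
  rcases eq_or_ne n 0 with rfl | hn
  · simp
  · have hn0 : (n : ℂ) ≠ 0 := by exact_mod_cast hn
    rw [LSeries.term_of_ne_zero hn, LSeries.term_of_ne_zero hn, Complex.cpow_add _ _ hn0]
    unfold sh
    rw [Complex.cpow_neg]
    field_simp

theorem lw_of (h1 : S_cq) (h2 : S_ledge) (h3 : S_redge) (h4 : S_shb) {k r : ℕ} {A : ℝ} {lc : ℝ → ℝ} {F F' E : ℂ → ℂ}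
    {a a' b : ℕ → ℂ} (H : LL k r A lc F F' E a a' b) {κ : ℝ} (hκ0 : 0 ≤ κ) (hκ1 : κ < 1 / 2) :
    ∃ A' : ℝ, LW k r A' (1 - κ) (fun s => F (s + κ)) (fun s => F' (s + κ)) (fun s => E (s + κ)) (sh κ a) (sh κ a')
      (sh κ b) := by
  obtain ⟨A1, hA1, g1⟩ := h4 k A lc F a κ H.hk H.hA H.good H.ram hκ0 hκ1
  obtain ⟨A2, hA2, g2⟩ := h4 k A lc F' a' κ H.hk H.hA H.good' H.ram' hκ0 hκ1
  have e1 : (((1 - κ : ℝ) : ℂ)) = 1 - κ := by push_cast; ring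
  refine ⟨max A1 A2, ⟨by linarith, by linarith, g1.mono (le_max_left _ _), g2.mono (le_max_right _ _), fun s => ?_, ?_,
    fun s hs => ?_, ?_, fun s hs => ?_, fun s hs => ?_, fun RH => ?_⟩⟩
  · show F' (s + κ) = _
    rw [H.hconj, map_add, Complex.conj_ofReal]
  · exact H.ent.comp (differentiable_id.add_const _)
  · show E (s + κ) = _
    rw [e1] at hs ⊢
    rw [H.hE (s + κ) (fun h => hs (by rw [← h]; ring))]
    congr 2
    ring
  · rcases H.h1 with h | h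
    · exact Or.inl h
    · right
      show E (((1 - κ : ℝ) : ℂ) + κ) ≠ 0
      rw [e1]
      simpa using h
  · have h5 : 1 < (s + κ).re := by
      rw [Complex.add_re, Complex.ofReal_re]
      linarith
    have h6 := H.sb _ h5
    unfold LSeriesSummable at h6 ⊢
    simpa only [term_sh, funext_iff] using (show Summable (LSeries.term (sh κ b) s) by
      have : LSeries.term (sh κ b) s = LSeries.term b (s + κ) := funext (term_sh κ b s)
      rw [this]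
      exact h6)
  · have h5 : 1 < (s + κ).re := by
      rw [Complex.add_re, Complex.ofReal_re]
      linarith
    have h6 := H.hb _ h5
    have h7 : LSeries (sh κ b) s = LSeries b (s + κ) := by
      unfold LSeries
      exact tsum_congr (term_sh κ b s)
    show F (s + κ) * LSeries (sh κ b) s = 1
    rw [h7]
    exact h6
  · have hE : ∀ s : ℂ, 1 / 2 + κ < s.re → E s ≠ 0 := by
      intro s hs
      have := RH (s - κ) (by rw [Complex.sub_re, Complex.ofReal_re]; linarith)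
      simpa using this
    have hF : ∀ s : ℂ, 1 / 2 + κ < s.re → s.im ≠ 0 → F s ≠ 0 := by
      intro s hs h5 h0
      have h6 : s ≠ 1 := by
        rintro rfl
        simp at h5
      refine hE s hs ?_
      rw [H.hE s h6, h0, mul_zero]
    refine ⟨ci_of h1 h2 h3 h4 (lc := lc) (A := A) ⟨H.hk, H.hA, H.hlc, H.good, H.ram, hκ0, hκ1, fun s hs h5 =>
      hF s hs (by linarith)⟩, ci_of h1 h2 h3 h4 (lc := lc) (A := A) ⟨H.hk, H.hA, H.hlc, H.good', H.ram', hκ0, hκ1,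
      fun s hs h5 => ?_⟩⟩
    rw [H.hconj]
    have := hF ((starRingEnd ℂ) s) (by rw [Complex.conj_re]; exact hs) (by rw [Complex.conj_im]; linarith)
    simpa using this

/-- **The engine for half-planes.** -/
theorem engine_of (h1 : S_cq) (h2 : S_ledge) (h3 : S_redge) (h4 : S_shb) {k r : ℕ} {A : ℝ} {lc : ℝ → ℝ} {F F' E : ℂ → ℂ}
    {a a' b : ℕ → ℂ} (H : LL k r A lc F F' E a a' b) {θ : ℝ} (hθ0 : 1 / 2 ≤ θ) (hθ1 : θ < 1) :
    (∀ s : ℂ, θ < s.re → E s ≠ 0) ↔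
      ∃ C : ℝ, ∀ x : ℝ, 3 ≤ x → ‖∑ n ∈ Finset.Icc 1 ⌊x⌋₊, b n‖ ≤ x ^ θ * Real.exp (C * Qk k x) := by
  obtain ⟨κ, hκ⟩ : ∃ κ : ℝ, κ = θ - 1 / 2 := ⟨_, rfl⟩
  have hκ0 : 0 ≤ κ := by linarith
  have hκ1 : κ < 1 / 2 := by linarith
  obtain ⟨A', hW⟩ := lw_of h1 h2 h3 h4 H hκ0 hκ1
  have e := engineq hW
  rw [pst H.hk hκ0 hκ1.le b] at e
  have e2 : (1 / 2 + κ : ℝ) = θ := by linarith
  rw [e2] at e
  rw [← e]
  constructor
  · intro h s hs
    exact h _ (by rw [Complex.add_re, Complex.ofReal_re]; linarith)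
  · intro h s hs
    have := h (s - κ) (by rw [Complex.sub_re, Complex.ofReal_re]; linarith)
    simpa using this

end Pool.Agent.N964.GW
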