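import Mathlib
import Pool.Agent.N964.GW.Fin
import Pool.Agent.N608.GXA0
import Pool.Agent.N862.GW.Pos
import Pool.Agent.N499.GW.Left
import Pool.Agent.N749.GWZ
import Pool.Agent.N344.GW.C
import Pool.Agent.N413.GW.RE
import Pool.Agent.N971.GW.SH
import Pool.Agent.N263.GW.B
import Pool.Agent.N186.GW.LE

set_option autoImplicit false

/-!
# Project GW: assembly
-/

namespace Pool.Agent.N964.GW

open Pool.Agent.N964.GX (Qk LL)

/-- **The engine for half-planes.** -/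
theorem engine_half {k r : ℕ} {A : ℝ} {lc : ℝ → ℝ} {F F' E : ℂ → ℂ} {a a' b : ℕ → ℂ} (H : LL k r A lc F F' E a a' b)
    {θ : ℝ} (hθ0 : 1 / 2 ≤ θ) (hθ1 : θ < 1) :
    (∀ s : ℂ, θ < s.re → E s ≠ 0) ↔
      ∃ C : ℝ, ∀ x : ℝ, 3 ≤ x → ‖∑ n ∈ Finset.Icc 1 ⌊x⌋₊, b n‖ ≤ x ^ θ * Real.exp (C * Qk k x) :=
  engine_of (Pool.Agent.N344.GWC.cq_of Pool.Agent.N608.GXA0.res Pool.Agent.N862.GW.pos Pool.Agent.N263.GW.bd
      Pool.Agent.N749.GWZ.zero)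
    (Pool.Agent.N186.GW.ledge_of Pool.Agent.N263.GW.bd Pool.Agent.N499.GWL.left)
    (Pool.Agent.N413.GWRE.redge_of Pool.Agent.N263.GW.bdr primq)
    Pool.Agent.N971.GWSH.shb H hθ0 hθ1

end Pool.Agent.N964.GW
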