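import Mathlib
import Pool.Agent.N964.GW.Asm
import Pool.Agent.N964.GX.EK7

set_option autoImplicit false

/-!
# Project GW: the Riemann zeta function
-/

namespace Pool.Agent.N964.GW

open Complex NumberField
open Pool.Agent.N964.GX (Qk LL coI IsInv IsLF ray1_all)
open Pool.Agent.R362.HL (rayPole)

open Classical in
/-- the trivial character of the ideals of `ℤ` -/
noncomputable def triv : Ideal (𝓞 ℚ) →*₀ ℂ where
  toFun 𝔞 := if 𝔞 = ⊥ then 0 else 1
  map_zero' := by simp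
  map_one' := by
    rw [if_neg]
    rw [Ideal.one_eq_top]
    exact top_ne_bot
  map_mul' := by
    intro x y
    by_cases hx : x = ⊥
    · simp [hx]
    · by_cases hy : y = ⊥
      · simp [hy]
      · rw [if_neg hx, if_neg hy, if_neg, one_mul]
        rw [← Ideal.zero_eq_bot] at hx hy ⊢
        exact mul_ne_zero hx hy

lemma triv_ne {𝔞 : Ideal (𝓞 ℚ)} (h : 𝔞 ≠ ⊥) : triv 𝔞 = 1 := by
  unfold triv
  show (if 𝔞 = ⊥ then (0 : ℂ) else 1) = 1
  rw [if_neg h]

lemma triv_prim : Pool.Agent.Y773.G.IsPrimChar ℚ ⊤ triv := by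
  refine ⟨top_ne_bot, fun 𝔞 h => ?_, fun x hx _ _ => ?_, fun 𝔤 h1 h2 => ?_⟩
  · rw [triv_ne h, ← Ideal.one_eq_top]
    exact ⟨fun _ => isCoprime_one_right, fun _ => one_ne_zero⟩
  · exact triv_ne (by rwa [Ne, Ideal.span_singleton_eq_bot])
  · exfalso
    apply h2
    rw [← Ideal.one_eq_top] at h1
    exact Ideal.isUnit_iff.1 (isUnit_of_dvd_one h1)

lemma fin_one : Module.finrank ℤ (𝓞 ℚ) = 1 := by
  rw [RingOfIntegers.rank]
  exact Module.finrank_self ℚ

lemma norm_set {n : ℕ} (hn : n ≠ 0) : {𝔞 : Ideal (𝓞 ℚ) | Ideal.absNorm 𝔞 = n} = {Ideal.span {(n : 𝓞 ℚ)}} := by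
  ext 𝔞
  rw [Set.mem_ofPred_eq, Set.mem_singleton_iff]
  constructor
  · intro h
    have h1 : Ideal.span {((Ideal.absNorm 𝔞 : ℕ) : 𝓞 ℚ)} ≤ 𝔞 := Ideal.span_singleton_absNorm_le 𝔞
    rw [h] at h1
    obtain ⟨𝔟, hb⟩ := Ideal.dvd_iff_le.2 h1
    have h2 := congrArg Ideal.absNorm hb
    rw [Ideal.absNorm_span_natCast, fin_one, pow_one, map_mul, h] at h2
    have h3 : Ideal.absNorm 𝔟 = 1 := by
      have : n * Ideal.absNorm 𝔟 = n * 1 := by omega
      exact Nat.eq_of_mul_eq_mul_left (Nat.pos_of_ne_zero hn) this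
    rw [Ideal.absNorm_eq_one_iff] at h3
    rw [h3, Ideal.mul_top] at hb
    exact hb.symm
  · rintro rfl
    rw [Ideal.absNorm_span_natCast, fin_one, pow_one]

lemma coI_triv {n : ℕ} (hn : n ≠ 0) : coI triv n = 1 := by
  unfold Pool.Agent.N964.GX.coI
  rw [norm_set hn, finsum_mem_singleton]
  apply triv_ne
  rw [Ne, Ideal.span_singleton_eq_bot]
  exact_mod_cast hn

/-- the inverse is the Moebius function -/
lemma inv_mu : IsInv (coI triv) (fun n => ((ArithmeticFunction.moebius n : ℤ) : ℂ)) := by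
  intro n hn
  have h0 : n ≠ 0 := by omega
  have h1 : ∑ d ∈ n.divisors, coI triv d * ((ArithmeticFunction.moebius (n / d) : ℤ) : ℂ) =
      ∑ d ∈ n.divisors, ((ArithmeticFunction.moebius (n / d) : ℤ) : ℂ) := by
    refine Finset.sum_congr rfl fun d hd => ?_
    have : d ≠ 0 := (Nat.pos_of_mem_divisors hd).ne'
    rw [coI_triv this, one_mul]
  have h2 : ∑ d ∈ n.divisors, ArithmeticFunction.moebius d = if n = 1 then 1 else 0 := by
    rw [← ArithmeticFunction.coe_mul_zeta_apply, ArithmeticFunction.moebius_mul_coe_zeta, ArithmeticFunction.one_apply]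
  rw [h1, Nat.sum_div_divisors n (fun d => ((ArithmeticFunction.moebius d : ℤ) : ℂ)), ← Int.cast_sum, h2]
  split_ifs <;> simp

/-- **Zero-free half-planes of the zeta function and sums of the Moebius function.** -/
theorem zeta_half {θ : ℝ} (hθ0 : 1 / 2 ≤ θ) (hθ1 : θ < 1) :
    (∀ s : ℂ, θ < s.re → s ≠ 1 → riemannZeta s ≠ 0) ↔
      ∃ C : ℝ, ∀ x : ℝ, 3 ≤ x → ‖∑ n ∈ Finset.Icc 1 ⌊x⌋₊, ((ArithmeticFunction.moebius n : ℤ) : ℂ)‖ ≤
        x ^ θ * Real.exp (C * Qk 1 x) := by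
  obtain ⟨A, lc, F, F', E, a, a', b0, H, hLF, hls, hle, hinv, hnz, hsym⟩ := ray1_all ℚ triv triv_prim
  have hlam1 : coI triv 1 = 1 := coI_triv one_ne_zero
  have heq := Pool.Agent.N964.GX.inv_unique hlam1 inv_mu hinv
  have hr : rayPole triv = 1 := by
    unfold Pool.Agent.R362.HL.rayPole
    rw [if_pos]
    intro 𝔞 h
    exact triv_ne h
  have hfr : Module.finrank ℚ ℚ = 1 := Module.finrank_self ℚ
  rw [hr, hfr] at H
  have e := engine_half H hθ0 hθ1
  have hsum : ∀ x : ℝ, ∑ n ∈ Finset.Icc 1 ⌊x⌋₊, ((ArithmeticFunction.moebius n : ℤ) : ℂ) =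
      ∑ n ∈ Finset.Icc 1 ⌊x⌋₊, b0 n := by
    intro x
    refine Finset.sum_congr rfl fun n hn => ?_
    rw [Finset.mem_Icc] at hn
    exact heq n hn.1
  simp_rw [hsum]
  rw [← e]
  -- `F = ζ` off `1`
  have hFz : ∀ s : ℂ, s ≠ 1 → F s = riemannZeta s := by
    have ho : IsOpen ({1}ᶜ : Set ℂ) := isOpen_compl_singleton
    have h1 : AnalyticOnNhd ℂ F ({1}ᶜ : Set ℂ) := by
      refine DifferentiableOn.analyticOnNhd (fun z hz => ?_) ho
      exact (hLF.an hz).differentiableAt.differentiableWithinAt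
    have h2 : AnalyticOnNhd ℂ riemannZeta ({1}ᶜ : Set ℂ) := by
      refine DifferentiableOn.analyticOnNhd (fun z hz => ?_) ho
      exact (differentiableAt_riemannZeta hz).differentiableWithinAt
    have hc : IsPreconnected ({1}ᶜ : Set ℂ) :=
      (isConnected_compl_singleton_of_one_lt_rank (by rw [Complex.rank_real_complex]; norm_num) 1).isPreconnected
    have h3m : (3 : ℂ) ∈ ({1}ᶜ : Set ℂ) := by simp
    have h3 : F =ᶠ[nhds (3 : ℂ)] riemannZeta := by
      have hmem : {s : ℂ | 1 < s.re} ∈ nhds (3 : ℂ) := by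
        refine (isOpen_lt continuous_const Complex.continuous_re).mem_nhds ?_
        show (1 : ℝ) < ((3 : ℂ)).re
        rw [show ((3 : ℂ)).re = 3 by norm_num]
        norm_num
      filter_upwards [hmem] with z hz
      have hz1 : 1 < z.re := hz
      rw [hle z hz1, ← LSeries_one_eq_riemannZeta hz1]
      refine LSeries_congr (fun {n} hn => ?_) z
      rw [coI_triv hn]
      rfl
    intro s hs
    exact h1.eqOn_of_preconnected_of_eventuallyEq h2 hc h3m h3 hs
  constructor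
  · intro h s hs h0
    rcases lt_or_ge s.re 1 with h2 | h2
    · have hs1 : s ≠ 1 := by
        rintro rfl
        rw [Complex.one_re] at h2
        exact lt_irrefl _ h2
      rw [hLF.hE s hs1, hFz s hs1] at h0
      rcases mul_eq_zero.1 h0 with h3 | h3
      · exact pow_ne_zero _ (sub_ne_zero.2 hs1) h3
      · exact h s hs hs1 h3
    · exact hnz s h2 h0
  · intro h s hs hs1 h0
    refine h s hs ?_
    rw [hLF.hE s hs1, hFz s hs1, h0, mul_zero]

end Pool.Agent.N964.GW
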